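import Pool.Agent.LWG.EvT
import Pool.Agent.LWG.Short
import Pool.Agent.LWG.Start

/-!
# Typed substitution: data (generated by genlwg.py)
-/

namespace LW44

open LWG

def blkL : List (List (ℤ × ℕ)) := [[(.ofNat 1, 0), (.ofNat 2, 1), (.ofNat 1, 2), (.ofNat 0, 0), (.ofNat 1, 3), (.ofNat 2, 1), (.ofNat 1, 2), (.ofNat 0, 0), (.ofNat 1, 1), (.ofNat 0, 2), (.negSucc 0, 0), (.ofNat 0, 1), (.negSucc 0, 2), (.negSucc 1, 0), (.negSucc 0, 3), (.ofNat 0, 1), (.negSucc 0, 0), (.ofNat 0, 3), (.ofNat 1, 1), (.ofNat 0, 0), (.ofNat 1, 3), (.ofNat 2, 1), (.ofNat 1, 2), (.ofNat 0, 0), (.ofNat 1, 1), (.ofNat 0, 2), (.negSucc 0, 0), (.ofNat 0, 1), (.negSucc 0, 2), (.negSucc 1, 0), (.negSucc 0, 3), (.ofNat 0, 1), (.negSucc 0, 2), (.negSucc 1, 0), (.negSucc 0, 3), (.ofNat 0, 1), (.negSucc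 0, 0), (.ofNat 0, 3), (.ofNat 1, 1), (.ofNat 0, 0), (.ofNat 1, 1), (.ofNat 0, 2), (.negSucc 0, 0), (.ofNat 0, 3)],
  [(.negSucc 0, 1), (.negSucc 1, 0), (.negSucc 0, 3), (.ofNat 0, 1), (.negSucc 0, 2), (.negSucc 1, 0), (.negSucc 0, 3), (.ofNat 0, 1), (.negSucc 0, 0), (.ofNat 0, 3), (.ofNat 1, 1), (.ofNat 0, 0), (.ofNat 1, 3), (.ofNat 2, 1), (.ofNat 1, 2), (.ofNat 0, 0), (.ofNat 1, 1), (.ofNat 0, 2), (.negSucc 0, 0), (.ofNat 0, 1), (.negSucc 0, 2), (.negSucc 1, 0), (.negSucc 0, 3), (.ofNat 0, 1), (.negSucc 0, 0), (.ofNat 0, 3), (.ofNat 1, 1), (.ofNat 0, 0), (.ofNat 1, 3), (.ofNat 2, 1), (.ofNat 1, 2), (.ofNat 0, 0), (.ofNat 1, 3), (.ofNat 2, 1), (.ofNat 1, 2), (.ofNat 0, 0), (.ofNat 1, 1), (.ofNat 0, 2), (.negSucc 0, 0), (.ofNat 0, 1), (.negSucc 0, 0), (.ofNat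 0, 3), (.ofNat 1, 1), (.ofNat 0, 2)],
  [(.ofNat 1, 0), (.ofNat 2, 1), (.ofNat 1, 2), (.ofNat 0, 0), (.ofNat 1, 3), (.ofNat 2, 1), (.ofNat 1, 2), (.ofNat 0, 0), (.ofNat 1, 1), (.ofNat 0, 2), (.negSucc 0, 0), (.ofNat 0, 1), (.negSucc 0, 2), (.negSucc 1, 0), (.negSucc 0, 3), (.ofNat 0, 1), (.negSucc 0, 0), (.ofNat 0, 3), (.ofNat 1, 1), (.ofNat 0, 0), (.ofNat 1, 3), (.ofNat 2, 1), (.ofNat 1, 2), (.ofNat 0, 0), (.ofNat 1, 1), (.ofNat 0, 2), (.negSucc 0, 0), (.ofNat 0, 1), (.negSucc 0, 2), (.negSucc 1, 0), (.negSucc 0, 3), (.ofNat 0, 1), (.negSucc 0, 2), (.negSucc 1, 0), (.negSucc 0, 3), (.ofNat 0, 1), (.negSucc 0, 0), (.ofNat 0, 3), (.ofNat 1, 1), (.ofNat 0, 0), (.ofNat 1, 1), (.ofNat 0, 2), (.negSucc 0, 0), (.ofNat 0, 1)],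
  [(.negSucc 0, 1), (.negSucc 1, 0), (.negSucc 0, 3), (.ofNat 0, 1), (.negSucc 0, 2), (.negSucc 1, 0), (.negSucc 0, 3), (.ofNat 0, 1), (.negSucc 0, 0), (.ofNat 0, 3), (.ofNat 1, 1), (.ofNat 0, 0), (.ofNat 1, 3), (.ofNat 2, 1), (.ofNat 1, 2), (.ofNat 0, 0), (.ofNat 1, 1), (.ofNat 0, 2), (.negSucc 0, 0), (.ofNat 0, 1), (.negSucc 0, 2), (.negSucc 1, 0), (.negSucc 0, 3), (.ofNat 0, 1), (.negSucc 0, 0), (.ofNat 0, 3), (.ofNat 1, 1), (.ofNat 0, 0), (.ofNat 1, 3), (.ofNat 2, 1), (.ofNat 1, 2), (.ofNat 0, 0), (.ofNat 1, 3), (.ofNat 2, 1), (.ofNat 1, 2), (.ofNat 0, 0), (.ofNat 1, 1), (.ofNat 0, 2), (.negSucc 0, 0), (.ofNat 0, 1), (.negSucc 0, 0), (.ofNat 0, 3), (.ofNat 1, 1), (.ofNat 0, 0)]]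
def stL : List (List ℤ) := [[.negSucc 0, .ofNat 1],
  [.ofNat 1, .negSucc 0],
  [.negSucc 0, .negSucc 0],
  [.ofNat 1, .ofNat 1]]
def nxtL : List (List ℕ) := [[1, 3],
  [0, 2],
  [0],
  [1]]
def S : Tab := ⟨2, 44, 4, 1, .negSucc 0, [.ofNat 3, .ofNat 8, .ofNat 8, .ofNat 3], fun c => blkL.getD c [], fun c => stL.getD c [],
  fun c => nxtL.getD c []⟩
def cs : ℤ → List ℤ
  | .ofNat 0 => [.ofNat 3, .ofNat 8]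
  | _ => [.ofNat 8, .ofNat 3]
def cs' : ℤ → List ℤ
  | .ofNat 0 => [.ofNat 3, .ofNat 8]
  | _ => [.ofNat 8, .ofNat 3]
def K : Co := ⟨.ofNat 2, .negSucc 0, cs⟩
def K' : Co := ⟨.ofNat 2, .negSucc 0, cs'⟩
def patL0 : List (List Pat) := [[⟨.negSucc 0, .negSucc 2, [.ofNat 0, .ofNat 0, .negSucc 1]⟩,
    ⟨.negSucc 0, .negSucc 1, [.ofNat 0, .negSucc 0]⟩,
    ⟨.ofNat 0, .negSucc 1, [.ofNat 0, .negSucc 0]⟩,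
    ⟨.ofNat 0, .negSucc 1, [.ofNat 0, .ofNat 0, .negSucc 0]⟩,
    ⟨.ofNat 0, .negSucc 1, [.ofNat 0, .ofNat 0, .ofNat 0]⟩,
    ⟨.ofNat 0, .negSucc 1, [.ofNat 1, .negSucc 0, .ofNat 0]⟩,
    ⟨.ofNat 1, .negSucc 1, [.ofNat 0, .ofNat 0, .negSucc 0]⟩,
    ⟨.ofNat 1, .negSucc 1, [.ofNat 0, .ofNat 0, .ofNat 0]⟩,
    ⟨.ofNat 1, .negSucc 0, [.ofNat 0, .ofNat 0, .negSucc 0]⟩,
    ⟨.ofNat 2, .negSucc 0, [.ofNat 0, .ofNat 1, .negSucc 0]⟩],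
  [⟨.negSucc 0, .negSucc 1, [.ofNat 0, .ofNat 0]⟩,
    ⟨.negSucc 0, .negSucc 1, [.ofNat 1, .ofNat 0, .ofNat 0]⟩,
    ⟨.ofNat 0, .negSucc 0, [.ofNat 0, .ofNat 1, .negSucc 1]⟩,
    ⟨.ofNat 0, .negSucc 0, [.ofNat 0, .ofNat 1, .negSucc 0]⟩,
    ⟨.ofNat 0, .negSucc 0, [.ofNat 1, .ofNat 1, .negSucc 0]⟩,
    ⟨.ofNat 1, .negSucc 1, [.ofNat 0, .ofNat 0, .negSucc 0]⟩,
    ⟨.ofNat 1, .ofNat 0, [.ofNat 1, .ofNat 0]⟩,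
    ⟨.ofNat 1, .ofNat 0, [.ofNat 2, .ofNat 0, .ofNat 0]⟩],
  [⟨.negSucc 0, .negSucc 2, [.ofNat 0, .ofNat 0, .negSucc 1]⟩,
    ⟨.negSucc 0, .negSucc 1, [.ofNat 0, .negSucc 0]⟩,
    ⟨.ofNat 0, .negSucc 1, [.ofNat 0, .negSucc 0]⟩,
    ⟨.ofNat 0, .negSucc 1, [.ofNat 0, .ofNat 0, .negSucc 0]⟩,
    ⟨.ofNat 0, .negSucc 1, [.ofNat 0, .ofNat 0, .ofNat 0]⟩,
    ⟨.ofNat 0, .negSucc 1, [.ofNat 1, .negSucc 0, .ofNat 0]⟩,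
    ⟨.ofNat 1, .negSucc 1, [.ofNat 0, .ofNat 0, .negSucc 0]⟩,
    ⟨.ofNat 1, .negSucc 1, [.ofNat 0, .ofNat 0, .ofNat 0]⟩,
    ⟨.ofNat 1, .negSucc 0, [.ofNat 0, .ofNat 0, .negSucc 0]⟩,
    ⟨.ofNat 2, .negSucc 0, [.ofNat 0, .ofNat 1, .negSucc 0]⟩],
  [⟨.negSucc 0, .negSucc 1, [.ofNat 0, .ofNat 0]⟩,
    ⟨.negSucc 0, .negSucc 1, [.ofNat 1, .ofNat 0, .ofNat 0]⟩,
    ⟨.ofNat 0, .negSucc 0, [.ofNat 0, .ofNat 1, .negSucc 1]⟩,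
    ⟨.ofNat 0, .negSucc 0, [.ofNat 0, .ofNat 1, .negSucc 0]⟩,
    ⟨.ofNat 0, .negSucc 0, [.ofNat 1, .ofNat 1, .negSucc 0]⟩,
    ⟨.ofNat 1, .negSucc 1, [.ofNat 0, .ofNat 0, .negSucc 0]⟩,
    ⟨.ofNat 1, .ofNat 0, [.ofNat 1, .ofNat 0]⟩,
    ⟨.ofNat 1, .ofNat 0, [.ofNat 2, .ofNat 0, .ofNat 0]⟩]]
def patL1 : List (List Pat) := [[⟨.negSucc 0, .negSucc 2, [.ofNat 0, .ofNat 0, .negSucc 1]⟩,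
    ⟨.negSucc 0, .negSucc 1, [.ofNat 0, .negSucc 0]⟩,
    ⟨.negSucc 0, .negSucc 0, [.ofNat 1, .ofNat 0, .ofNat 0]⟩,
    ⟨.ofNat 0, .negSucc 1, [.ofNat 1, .negSucc 0, .negSucc 0]⟩,
    ⟨.ofNat 0, .negSucc 1, [.ofNat 1, .negSucc 0, .ofNat 0]⟩,
    ⟨.ofNat 0, .negSucc 1, [.ofNat 2, .negSucc 0, .ofNat 0]⟩,
    ⟨.ofNat 1, .negSucc 0, [.ofNat 0, .ofNat 0, .negSucc 0]⟩,
    ⟨.ofNat 1, .ofNat 0, [.ofNat 0, .ofNat 0]⟩],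
  [⟨.negSucc 1, .negSucc 1, [.ofNat 1, .negSucc 0, .ofNat 0]⟩,
    ⟨.negSucc 0, .negSucc 1, [.ofNat 1, .ofNat 0, .ofNat 0]⟩,
    ⟨.negSucc 0, .negSucc 0, [.ofNat 0, .ofNat 0, .ofNat 0]⟩,
    ⟨.negSucc 0, .negSucc 0, [.ofNat 1, .ofNat 0, .ofNat 0]⟩,
    ⟨.ofNat 0, .negSucc 0, [.ofNat 0, .ofNat 0, .ofNat 0]⟩,
    ⟨.ofNat 0, .negSucc 0, [.ofNat 0, .ofNat 1, .negSucc 0]⟩,
    ⟨.ofNat 0, .negSucc 0, [.ofNat 1, .ofNat 0, .ofNat 0]⟩,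
    ⟨.ofNat 0, .ofNat 0, [.ofNat 1, .ofNat 0]⟩,
    ⟨.ofNat 1, .ofNat 0, [.ofNat 1, .ofNat 0]⟩,
    ⟨.ofNat 1, .ofNat 0, [.ofNat 2, .ofNat 0, .ofNat 0]⟩],
  [⟨.negSucc 0, .negSucc 2, [.ofNat 0, .ofNat 0, .negSucc 1]⟩,
    ⟨.negSucc 0, .negSucc 1, [.ofNat 0, .negSucc 0]⟩,
    ⟨.negSucc 0, .negSucc 0, [.ofNat 1, .ofNat 0, .ofNat 0]⟩,
    ⟨.ofNat 0, .negSucc 1, [.ofNat 1, .negSucc 0, .negSucc 0]⟩,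
    ⟨.ofNat 0, .negSucc 1, [.ofNat 1, .negSucc 0, .ofNat 0]⟩,
    ⟨.ofNat 0, .negSucc 1, [.ofNat 2, .negSucc 0, .ofNat 0]⟩,
    ⟨.ofNat 1, .negSucc 0, [.ofNat 0, .ofNat 0, .negSucc 0]⟩,
    ⟨.ofNat 1, .ofNat 0, [.ofNat 0, .ofNat 0]⟩],
  [⟨.negSucc 1, .negSucc 1, [.ofNat 1, .negSucc 0, .ofNat 0]⟩,
    ⟨.negSucc 0, .negSucc 1, [.ofNat 1, .ofNat 0, .ofNat 0]⟩,
    ⟨.negSucc 0, .negSucc 0, [.ofNat 0, .ofNat 0, .ofNat 0]⟩,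
    ⟨.negSucc 0, .negSucc 0, [.ofNat 1, .ofNat 0, .ofNat 0]⟩,
    ⟨.ofNat 0, .negSucc 0, [.ofNat 0, .ofNat 0, .ofNat 0]⟩,
    ⟨.ofNat 0, .negSucc 0, [.ofNat 0, .ofNat 1, .negSucc 0]⟩,
    ⟨.ofNat 0, .negSucc 0, [.ofNat 1, .ofNat 0, .ofNat 0]⟩,
    ⟨.ofNat 0, .ofNat 0, [.ofNat 1, .ofNat 0]⟩,
    ⟨.ofNat 1, .ofNat 0, [.ofNat 1, .ofNat 0]⟩,
    ⟨.ofNat 1, .ofNat 0, [.ofNat 2, .ofNat 0, .ofNat 0]⟩]]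
def patL2 : List (List Pat) := [[⟨.negSucc 0, .negSucc 2, [.ofNat 0, .ofNat 0, .negSucc 1]⟩,
    ⟨.negSucc 0, .negSucc 1, [.ofNat 0, .negSucc 0]⟩,
    ⟨.negSucc 0, .negSucc 0, [.ofNat 1, .ofNat 0, .ofNat 0]⟩,
    ⟨.ofNat 0, .negSucc 1, [.ofNat 1, .negSucc 0, .ofNat 0]⟩,
    ⟨.ofNat 1, .negSucc 0, [.ofNat 0, .ofNat 0, .negSucc 0]⟩,
    ⟨.ofNat 1, .ofNat 0, [.ofNat 0, .ofNat 0]⟩,
    ⟨.ofNat 2, .negSucc 0, [.ofNat 0, .ofNat 1, .negSucc 0]⟩],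
  [⟨.negSucc 0, .negSucc 1, [.ofNat 1, .ofNat 0, .ofNat 0]⟩,
    ⟨.negSucc 0, .negSucc 0, [.ofNat 0, .ofNat 0, .ofNat 0]⟩,
    ⟨.negSucc 0, .negSucc 0, [.ofNat 1, .ofNat 0, .ofNat 0]⟩,
    ⟨.ofNat 0, .negSucc 0, [.ofNat 0, .ofNat 0, .ofNat 0]⟩,
    ⟨.ofNat 0, .negSucc 0, [.ofNat 0, .ofNat 1, .negSucc 1]⟩,
    ⟨.ofNat 0, .negSucc 0, [.ofNat 0, .ofNat 1, .negSucc 0]⟩,
    ⟨.ofNat 0, .negSucc 0, [.ofNat 1, .ofNat 0, .ofNat 0]⟩,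
    ⟨.ofNat 0, .negSucc 0, [.ofNat 1, .ofNat 1, .negSucc 0]⟩,
    ⟨.ofNat 0, .negSucc 0, [.ofNat 2, .ofNat 0, .ofNat 0]⟩,
    ⟨.ofNat 0, .ofNat 0, [.ofNat 1, .ofNat 0]⟩,
    ⟨.ofNat 1, .negSucc 0, [.ofNat 1, .ofNat 0, .ofNat 0]⟩,
    ⟨.ofNat 1, .ofNat 0, [.ofNat 1, .ofNat 0]⟩,
    ⟨.ofNat 1, .ofNat 0, [.ofNat 2, .ofNat 0, .ofNat 0]⟩],
  [⟨.negSucc 0, .negSucc 2, [.ofNat 0, .ofNat 0, .negSucc 1]⟩,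
    ⟨.negSucc 0, .negSucc 1, [.ofNat 0, .negSucc 0]⟩,
    ⟨.negSucc 0, .negSucc 0, [.ofNat 1, .ofNat 0, .ofNat 0]⟩,
    ⟨.ofNat 0, .negSucc 1, [.ofNat 1, .negSucc 0, .ofNat 0]⟩,
    ⟨.ofNat 1, .negSucc 0, [.ofNat 0, .ofNat 0, .negSucc 0]⟩,
    ⟨.ofNat 1, .ofNat 0, [.ofNat 0, .ofNat 0]⟩,
    ⟨.ofNat 2, .negSucc 0, [.ofNat 0, .ofNat 1, .negSucc 0]⟩],
  [⟨.negSucc 0, .negSucc 1, [.ofNat 1, .ofNat 0, .ofNat 0]⟩,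
    ⟨.negSucc 0, .negSucc 0, [.ofNat 0, .ofNat 0, .ofNat 0]⟩,
    ⟨.negSucc 0, .negSucc 0, [.ofNat 1, .ofNat 0, .ofNat 0]⟩,
    ⟨.ofNat 0, .negSucc 0, [.ofNat 0, .ofNat 0, .ofNat 0]⟩,
    ⟨.ofNat 0, .negSucc 0, [.ofNat 0, .ofNat 1, .negSucc 1]⟩,
    ⟨.ofNat 0, .negSucc 0, [.ofNat 0, .ofNat 1, .negSucc 0]⟩,
    ⟨.ofNat 0, .negSucc 0, [.ofNat 1, .ofNat 0, .ofNat 0]⟩,
    ⟨.ofNat 0, .negSucc 0, [.ofNat 1, .ofNat 1, .negSucc 0]⟩,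
    ⟨.ofNat 0, .negSucc 0, [.ofNat 2, .ofNat 0, .ofNat 0]⟩,
    ⟨.ofNat 0, .ofNat 0, [.ofNat 1, .ofNat 0]⟩,
    ⟨.ofNat 1, .negSucc 0, [.ofNat 1, .ofNat 0, .ofNat 0]⟩,
    ⟨.ofNat 1, .ofNat 0, [.ofNat 1, .ofNat 0]⟩,
    ⟨.ofNat 1, .ofNat 0, [.ofNat 2, .ofNat 0, .ofNat 0]⟩]]
def patL3 : List (List Pat) := [[⟨.negSucc 0, .negSucc 2, [.ofNat 0, .ofNat 0, .negSucc 1]⟩,
    ⟨.negSucc 0, .negSucc 1, [.ofNat 0, .negSucc 0]⟩,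
    ⟨.negSucc 0, .negSucc 1, [.ofNat 0, .ofNat 0, .negSucc 0]⟩,
    ⟨.ofNat 0, .negSucc 1, [.ofNat 0, .negSucc 0]⟩,
    ⟨.ofNat 0, .negSucc 1, [.ofNat 0, .ofNat 0, .negSucc 1]⟩,
    ⟨.ofNat 0, .negSucc 1, [.ofNat 0, .ofNat 0, .negSucc 0]⟩,
    ⟨.ofNat 0, .negSucc 1, [.ofNat 0, .ofNat 0, .ofNat 0]⟩,
    ⟨.ofNat 0, .negSucc 1, [.ofNat 1, .negSucc 0, .negSucc 0]⟩,
    ⟨.ofNat 0, .negSucc 1, [.ofNat 1, .negSucc 0, .ofNat 0]⟩,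
    ⟨.ofNat 0, .negSucc 1, [.ofNat 2, .negSucc 0, .ofNat 0]⟩,
    ⟨.ofNat 1, .negSucc 1, [.ofNat 0, .ofNat 0, .negSucc 0]⟩,
    ⟨.ofNat 1, .negSucc 1, [.ofNat 0, .ofNat 0, .ofNat 0]⟩,
    ⟨.ofNat 1, .negSucc 0, [.ofNat 0, .ofNat 0, .negSucc 0]⟩],
  [⟨.negSucc 1, .negSucc 1, [.ofNat 1, .negSucc 0, .ofNat 0]⟩,
    ⟨.negSucc 0, .negSucc 1, [.ofNat 0, .ofNat 0]⟩,
    ⟨.negSucc 0, .negSucc 1, [.ofNat 1, .ofNat 0, .ofNat 0]⟩,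
    ⟨.ofNat 0, .negSucc 0, [.ofNat 0, .ofNat 1, .negSucc 0]⟩,
    ⟨.ofNat 1, .negSucc 1, [.ofNat 0, .ofNat 0, .negSucc 0]⟩,
    ⟨.ofNat 1, .ofNat 0, [.ofNat 1, .ofNat 0]⟩,
    ⟨.ofNat 1, .ofNat 0, [.ofNat 2, .ofNat 0, .ofNat 0]⟩],
  [⟨.negSucc 0, .negSucc 2, [.ofNat 0, .ofNat 0, .negSucc 1]⟩,
    ⟨.negSucc 0, .negSucc 1, [.ofNat 0, .negSucc 0]⟩,
    ⟨.negSucc 0, .negSucc 1, [.ofNat 0, .ofNat 0, .negSucc 0]⟩,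
    ⟨.ofNat 0, .negSucc 1, [.ofNat 0, .negSucc 0]⟩,
    ⟨.ofNat 0, .negSucc 1, [.ofNat 0, .ofNat 0, .negSucc 1]⟩,
    ⟨.ofNat 0, .negSucc 1, [.ofNat 0, .ofNat 0, .negSucc 0]⟩,
    ⟨.ofNat 0, .negSucc 1, [.ofNat 0, .ofNat 0, .ofNat 0]⟩,
    ⟨.ofNat 0, .negSucc 1, [.ofNat 1, .negSucc 0, .negSucc 0]⟩,
    ⟨.ofNat 0, .negSucc 1, [.ofNat 1, .negSucc 0, .ofNat 0]⟩,
    ⟨.ofNat 0, .negSucc 1, [.ofNat 2, .negSucc 0, .ofNat 0]⟩,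
    ⟨.ofNat 1, .negSucc 1, [.ofNat 0, .ofNat 0, .negSucc 0]⟩,
    ⟨.ofNat 1, .negSucc 1, [.ofNat 0, .ofNat 0, .ofNat 0]⟩,
    ⟨.ofNat 1, .negSucc 0, [.ofNat 0, .ofNat 0, .negSucc 0]⟩],
  [⟨.negSucc 1, .negSucc 1, [.ofNat 1, .negSucc 0, .ofNat 0]⟩,
    ⟨.negSucc 0, .negSucc 1, [.ofNat 0, .ofNat 0]⟩,
    ⟨.negSucc 0, .negSucc 1, [.ofNat 1, .ofNat 0, .ofNat 0]⟩,
    ⟨.ofNat 0, .negSucc 0, [.ofNat 0, .ofNat 1, .negSucc 0]⟩,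
    ⟨.ofNat 1, .negSucc 1, [.ofNat 0, .ofNat 0, .negSucc 0]⟩,
    ⟨.ofNat 1, .ofNat 0, [.ofNat 1, .ofNat 0]⟩,
    ⟨.ofNat 1, .ofNat 0, [.ofNat 2, .ofNat 0, .ofNat 0]⟩]]
def patL : List (List (List Pat)) := [patL0, patL1, patL2, patL3]
def pats (c c' : ℕ) : List Pat := (patL.getD c []).getD c' []
def patM0 : List (List Pat) := [[⟨.ofNat 1, .ofNat 0, [.ofNat 2, .ofNat 0, .ofNat 0]⟩,
    ⟨.ofNat 1, .ofNat 0, [.ofNat 1, .ofNat 0]⟩,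
    ⟨.ofNat 0, .ofNat 0, [.ofNat 1, .ofNat 0]⟩,
    ⟨.ofNat 0, .negSucc 0, [.ofNat 1, .ofNat 0, .ofNat 0]⟩,
    ⟨.ofNat 0, .negSucc 0, [.ofNat 0, .ofNat 0, .ofNat 0]⟩,
    ⟨.ofNat 0, .negSucc 0, [.ofNat 0, .ofNat 1, .negSucc 0]⟩,
    ⟨.negSucc 0, .negSucc 0, [.ofNat 1, .ofNat 0, .ofNat 0]⟩,
    ⟨.negSucc 0, .negSucc 0, [.ofNat 0, .ofNat 0, .ofNat 0]⟩,
    ⟨.negSucc 0, .negSucc 1, [.ofNat 1, .ofNat 0, .ofNat 0]⟩,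
    ⟨.negSucc 1, .negSucc 1, [.ofNat 1, .negSucc 0, .ofNat 0]⟩],
  [⟨.ofNat 1, .ofNat 0, [.ofNat 0, .ofNat 0]⟩,
    ⟨.ofNat 1, .negSucc 0, [.ofNat 0, .ofNat 0, .negSucc 0]⟩,
    ⟨.ofNat 0, .negSucc 1, [.ofNat 2, .negSucc 0, .ofNat 0]⟩,
    ⟨.ofNat 0, .negSucc 1, [.ofNat 1, .negSucc 0, .ofNat 0]⟩,
    ⟨.ofNat 0, .negSucc 1, [.ofNat 1, .negSucc 0, .negSucc 0]⟩,
    ⟨.negSucc 0, .negSucc 0, [.ofNat 1, .ofNat 0, .ofNat 0]⟩,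
    ⟨.negSucc 0, .negSucc 1, [.ofNat 0, .negSucc 0]⟩,
    ⟨.negSucc 0, .negSucc 2, [.ofNat 0, .ofNat 0, .negSucc 1]⟩],
  [⟨.ofNat 1, .ofNat 0, [.ofNat 2, .ofNat 0, .ofNat 0]⟩,
    ⟨.ofNat 1, .ofNat 0, [.ofNat 1, .ofNat 0]⟩,
    ⟨.ofNat 0, .ofNat 0, [.ofNat 1, .ofNat 0]⟩,
    ⟨.ofNat 0, .negSucc 0, [.ofNat 1, .ofNat 0, .ofNat 0]⟩,
    ⟨.ofNat 0, .negSucc 0, [.ofNat 0, .ofNat 0, .ofNat 0]⟩,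
    ⟨.ofNat 0, .negSucc 0, [.ofNat 0, .ofNat 1, .negSucc 0]⟩,
    ⟨.negSucc 0, .negSucc 0, [.ofNat 1, .ofNat 0, .ofNat 0]⟩,
    ⟨.negSucc 0, .negSucc 0, [.ofNat 0, .ofNat 0, .ofNat 0]⟩,
    ⟨.negSucc 0, .negSucc 1, [.ofNat 1, .ofNat 0, .ofNat 0]⟩,
    ⟨.negSucc 1, .negSucc 1, [.ofNat 1, .negSucc 0, .ofNat 0]⟩],
  [⟨.ofNat 1, .ofNat 0, [.ofNat 0, .ofNat 0]⟩,
    ⟨.ofNat 1, .negSucc 0, [.ofNat 0, .ofNat 0, .negSucc 0]⟩,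
    ⟨.ofNat 0, .negSucc 1, [.ofNat 2, .negSucc 0, .ofNat 0]⟩,
    ⟨.ofNat 0, .negSucc 1, [.ofNat 1, .negSucc 0, .ofNat 0]⟩,
    ⟨.ofNat 0, .negSucc 1, [.ofNat 1, .negSucc 0, .negSucc 0]⟩,
    ⟨.negSucc 0, .negSucc 0, [.ofNat 1, .ofNat 0, .ofNat 0]⟩,
    ⟨.negSucc 0, .negSucc 1, [.ofNat 0, .negSucc 0]⟩,
    ⟨.negSucc 0, .negSucc 2, [.ofNat 0, .ofNat 0, .negSucc 1]⟩]]
def patM1 : List (List Pat) := [[⟨.ofNat 1, .ofNat 0, [.ofNat 2, .ofNat 0, .ofNat 0]⟩,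
    ⟨.ofNat 1, .ofNat 0, [.ofNat 1, .ofNat 0]⟩,
    ⟨.ofNat 1, .negSucc 1, [.ofNat 0, .ofNat 0, .negSucc 0]⟩,
    ⟨.ofNat 0, .negSucc 0, [.ofNat 1, .ofNat 1, .negSucc 0]⟩,
    ⟨.ofNat 0, .negSucc 0, [.ofNat 0, .ofNat 1, .negSucc 0]⟩,
    ⟨.ofNat 0, .negSucc 0, [.ofNat 0, .ofNat 1, .negSucc 1]⟩,
    ⟨.negSucc 0, .negSucc 1, [.ofNat 1, .ofNat 0, .ofNat 0]⟩,
    ⟨.negSucc 0, .negSucc 1, [.ofNat 0, .ofNat 0]⟩],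
  [⟨.ofNat 2, .negSucc 0, [.ofNat 0, .ofNat 1, .negSucc 0]⟩,
    ⟨.ofNat 1, .negSucc 0, [.ofNat 0, .ofNat 0, .negSucc 0]⟩,
    ⟨.ofNat 1, .negSucc 1, [.ofNat 0, .ofNat 0, .ofNat 0]⟩,
    ⟨.ofNat 1, .negSucc 1, [.ofNat 0, .ofNat 0, .negSucc 0]⟩,
    ⟨.ofNat 0, .negSucc 1, [.ofNat 0, .ofNat 0, .ofNat 0]⟩,
    ⟨.ofNat 0, .negSucc 1, [.ofNat 1, .negSucc 0, .ofNat 0]⟩,
    ⟨.ofNat 0, .negSucc 1, [.ofNat 0, .ofNat 0, .negSucc 0]⟩,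
    ⟨.ofNat 0, .negSucc 1, [.ofNat 0, .negSucc 0]⟩,
    ⟨.negSucc 0, .negSucc 1, [.ofNat 0, .negSucc 0]⟩,
    ⟨.negSucc 0, .negSucc 2, [.ofNat 0, .ofNat 0, .negSucc 1]⟩],
  [⟨.ofNat 1, .ofNat 0, [.ofNat 2, .ofNat 0, .ofNat 0]⟩,
    ⟨.ofNat 1, .ofNat 0, [.ofNat 1, .ofNat 0]⟩,
    ⟨.ofNat 1, .negSucc 1, [.ofNat 0, .ofNat 0, .negSucc 0]⟩,
    ⟨.ofNat 0, .negSucc 0, [.ofNat 1, .ofNat 1, .negSucc 0]⟩,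
    ⟨.ofNat 0, .negSucc 0, [.ofNat 0, .ofNat 1, .negSucc 0]⟩,
    ⟨.ofNat 0, .negSucc 0, [.ofNat 0, .ofNat 1, .negSucc 1]⟩,
    ⟨.negSucc 0, .negSucc 1, [.ofNat 1, .ofNat 0, .ofNat 0]⟩,
    ⟨.negSucc 0, .negSucc 1, [.ofNat 0, .ofNat 0]⟩],
  [⟨.ofNat 2, .negSucc 0, [.ofNat 0, .ofNat 1, .negSucc 0]⟩,
    ⟨.ofNat 1, .negSucc 0, [.ofNat 0, .ofNat 0, .negSucc 0]⟩,
    ⟨.ofNat 1, .negSucc 1, [.ofNat 0, .ofNat 0, .ofNat 0]⟩,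
    ⟨.ofNat 1, .negSucc 1, [.ofNat 0, .ofNat 0, .negSucc 0]⟩,
    ⟨.ofNat 0, .negSucc 1, [.ofNat 0, .ofNat 0, .ofNat 0]⟩,
    ⟨.ofNat 0, .negSucc 1, [.ofNat 1, .negSucc 0, .ofNat 0]⟩,
    ⟨.ofNat 0, .negSucc 1, [.ofNat 0, .ofNat 0, .negSucc 0]⟩,
    ⟨.ofNat 0, .negSucc 1, [.ofNat 0, .negSucc 0]⟩,
    ⟨.negSucc 0, .negSucc 1, [.ofNat 0, .negSucc 0]⟩,
    ⟨.negSucc 0, .negSucc 2, [.ofNat 0, .ofNat 0, .negSucc 1]⟩]]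
def patM2 : List (List Pat) := [[⟨.ofNat 1, .ofNat 0, [.ofNat 2, .ofNat 0, .ofNat 0]⟩,
    ⟨.ofNat 1, .ofNat 0, [.ofNat 1, .ofNat 0]⟩,
    ⟨.ofNat 1, .negSucc 1, [.ofNat 0, .ofNat 0, .negSucc 0]⟩,
    ⟨.ofNat 0, .negSucc 0, [.ofNat 0, .ofNat 1, .negSucc 0]⟩,
    ⟨.negSucc 0, .negSucc 1, [.ofNat 1, .ofNat 0, .ofNat 0]⟩,
    ⟨.negSucc 0, .negSucc 1, [.ofNat 0, .ofNat 0]⟩,
    ⟨.negSucc 1, .negSucc 1, [.ofNat 1, .negSucc 0, .ofNat 0]⟩],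
  [⟨.ofNat 1, .negSucc 0, [.ofNat 0, .ofNat 0, .negSucc 0]⟩,
    ⟨.ofNat 1, .negSucc 1, [.ofNat 0, .ofNat 0, .ofNat 0]⟩,
    ⟨.ofNat 1, .negSucc 1, [.ofNat 0, .ofNat 0, .negSucc 0]⟩,
    ⟨.ofNat 0, .negSucc 1, [.ofNat 0, .ofNat 0, .ofNat 0]⟩,
    ⟨.ofNat 0, .negSucc 1, [.ofNat 2, .negSucc 0, .ofNat 0]⟩,
    ⟨.ofNat 0, .negSucc 1, [.ofNat 1, .negSucc 0, .ofNat 0]⟩,
    ⟨.ofNat 0, .negSucc 1, [.ofNat 0, .ofNat 0, .negSucc 0]⟩,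
    ⟨.ofNat 0, .negSucc 1, [.ofNat 1, .negSucc 0, .negSucc 0]⟩,
    ⟨.ofNat 0, .negSucc 1, [.ofNat 0, .ofNat 0, .negSucc 1]⟩,
    ⟨.ofNat 0, .negSucc 1, [.ofNat 0, .negSucc 0]⟩,
    ⟨.negSucc 0, .negSucc 1, [.ofNat 0, .ofNat 0, .negSucc 0]⟩,
    ⟨.negSucc 0, .negSucc 1, [.ofNat 0, .negSucc 0]⟩,
    ⟨.negSucc 0, .negSucc 2, [.ofNat 0, .ofNat 0, .negSucc 1]⟩],
  [⟨.ofNat 1, .ofNat 0, [.ofNat 2, .ofNat 0, .ofNat 0]⟩,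
    ⟨.ofNat 1, .ofNat 0, [.ofNat 1, .ofNat 0]⟩,
    ⟨.ofNat 1, .negSucc 1, [.ofNat 0, .ofNat 0, .negSucc 0]⟩,
    ⟨.ofNat 0, .negSucc 0, [.ofNat 0, .ofNat 1, .negSucc 0]⟩,
    ⟨.negSucc 0, .negSucc 1, [.ofNat 1, .ofNat 0, .ofNat 0]⟩,
    ⟨.negSucc 0, .negSucc 1, [.ofNat 0, .ofNat 0]⟩,
    ⟨.negSucc 1, .negSucc 1, [.ofNat 1, .negSucc 0, .ofNat 0]⟩],
  [⟨.ofNat 1, .negSucc 0, [.ofNat 0, .ofNat 0, .negSucc 0]⟩,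
    ⟨.ofNat 1, .negSucc 1, [.ofNat 0, .ofNat 0, .ofNat 0]⟩,
    ⟨.ofNat 1, .negSucc 1, [.ofNat 0, .ofNat 0, .negSucc 0]⟩,
    ⟨.ofNat 0, .negSucc 1, [.ofNat 0, .ofNat 0, .ofNat 0]⟩,
    ⟨.ofNat 0, .negSucc 1, [.ofNat 2, .negSucc 0, .ofNat 0]⟩,
    ⟨.ofNat 0, .negSucc 1, [.ofNat 1, .negSucc 0, .ofNat 0]⟩,
    ⟨.ofNat 0, .negSucc 1, [.ofNat 0, .ofNat 0, .negSucc 0]⟩,
    ⟨.ofNat 0, .negSucc 1, [.ofNat 1, .negSucc 0, .negSucc 0]⟩,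
    ⟨.ofNat 0, .negSucc 1, [.ofNat 0, .ofNat 0, .negSucc 1]⟩,
    ⟨.ofNat 0, .negSucc 1, [.ofNat 0, .negSucc 0]⟩,
    ⟨.negSucc 0, .negSucc 1, [.ofNat 0, .ofNat 0, .negSucc 0]⟩,
    ⟨.negSucc 0, .negSucc 1, [.ofNat 0, .negSucc 0]⟩,
    ⟨.negSucc 0, .negSucc 2, [.ofNat 0, .ofNat 0, .negSucc 1]⟩]]
def patM3 : List (List Pat) := [[⟨.ofNat 1, .ofNat 0, [.ofNat 2, .ofNat 0, .ofNat 0]⟩,
    ⟨.ofNat 1, .ofNat 0, [.ofNat 1, .ofNat 0]⟩,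
    ⟨.ofNat 1, .negSucc 0, [.ofNat 1, .ofNat 0, .ofNat 0]⟩,
    ⟨.ofNat 0, .ofNat 0, [.ofNat 1, .ofNat 0]⟩,
    ⟨.ofNat 0, .negSucc 0, [.ofNat 2, .ofNat 0, .ofNat 0]⟩,
    ⟨.ofNat 0, .negSucc 0, [.ofNat 1, .ofNat 0, .ofNat 0]⟩,
    ⟨.ofNat 0, .negSucc 0, [.ofNat 0, .ofNat 0, .ofNat 0]⟩,
    ⟨.ofNat 0, .negSucc 0, [.ofNat 1, .ofNat 1, .negSucc 0]⟩,
    ⟨.ofNat 0, .negSucc 0, [.ofNat 0, .ofNat 1, .negSucc 0]⟩,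
    ⟨.ofNat 0, .negSucc 0, [.ofNat 0, .ofNat 1, .negSucc 1]⟩,
    ⟨.negSucc 0, .negSucc 0, [.ofNat 1, .ofNat 0, .ofNat 0]⟩,
    ⟨.negSucc 0, .negSucc 0, [.ofNat 0, .ofNat 0, .ofNat 0]⟩,
    ⟨.negSucc 0, .negSucc 1, [.ofNat 1, .ofNat 0, .ofNat 0]⟩],
  [⟨.ofNat 2, .negSucc 0, [.ofNat 0, .ofNat 1, .negSucc 0]⟩,
    ⟨.ofNat 1, .ofNat 0, [.ofNat 0, .ofNat 0]⟩,
    ⟨.ofNat 1, .negSucc 0, [.ofNat 0, .ofNat 0, .negSucc 0]⟩,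
    ⟨.ofNat 0, .negSucc 1, [.ofNat 1, .negSucc 0, .ofNat 0]⟩,
    ⟨.negSucc 0, .negSucc 0, [.ofNat 1, .ofNat 0, .ofNat 0]⟩,
    ⟨.negSucc 0, .negSucc 1, [.ofNat 0, .negSucc 0]⟩,
    ⟨.negSucc 0, .negSucc 2, [.ofNat 0, .ofNat 0, .negSucc 1]⟩],
  [⟨.ofNat 1, .ofNat 0, [.ofNat 2, .ofNat 0, .ofNat 0]⟩,
    ⟨.ofNat 1, .ofNat 0, [.ofNat 1, .ofNat 0]⟩,
    ⟨.ofNat 1, .negSucc 0, [.ofNat 1, .ofNat 0, .ofNat 0]⟩,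
    ⟨.ofNat 0, .ofNat 0, [.ofNat 1, .ofNat 0]⟩,
    ⟨.ofNat 0, .negSucc 0, [.ofNat 2, .ofNat 0, .ofNat 0]⟩,
    ⟨.ofNat 0, .negSucc 0, [.ofNat 1, .ofNat 0, .ofNat 0]⟩,
    ⟨.ofNat 0, .negSucc 0, [.ofNat 0, .ofNat 0, .ofNat 0]⟩,
    ⟨.ofNat 0, .negSucc 0, [.ofNat 1, .ofNat 1, .negSucc 0]⟩,
    ⟨.ofNat 0, .negSucc 0, [.ofNat 0, .ofNat 1, .negSucc 0]⟩,
    ⟨.ofNat 0, .negSucc 0, [.ofNat 0, .ofNat 1, .negSucc 1]⟩,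
    ⟨.negSucc 0, .negSucc 0, [.ofNat 1, .ofNat 0, .ofNat 0]⟩,
    ⟨.negSucc 0, .negSucc 0, [.ofNat 0, .ofNat 0, .ofNat 0]⟩,
    ⟨.negSucc 0, .negSucc 1, [.ofNat 1, .ofNat 0, .ofNat 0]⟩],
  [⟨.ofNat 2, .negSucc 0, [.ofNat 0, .ofNat 1, .negSucc 0]⟩,
    ⟨.ofNat 1, .ofNat 0, [.ofNat 0, .ofNat 0]⟩,
    ⟨.ofNat 1, .negSucc 0, [.ofNat 0, .ofNat 0, .negSucc 0]⟩,
    ⟨.ofNat 0, .negSucc 1, [.ofNat 1, .negSucc 0, .ofNat 0]⟩,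
    ⟨.negSucc 0, .negSucc 0, [.ofNat 1, .ofNat 0, .ofNat 0]⟩,
    ⟨.negSucc 0, .negSucc 1, [.ofNat 0, .negSucc 0]⟩,
    ⟨.negSucc 0, .negSucc 2, [.ofNat 0, .ofNat 0, .negSucc 1]⟩]]
def patM : List (List (List Pat)) := [patM0, patM1, patM2, patM3]
def NAL : List (List (List ℤ)) := [[[.ofNat 3, .ofNat 8, .ofNat 5, .negSucc 5, .negSucc 6, .negSucc 2], [.ofNat 3, .ofNat 8, .ofNat 5, .negSucc 5, .negSucc 7, .negSucc 1], [.ofNat 3, .ofNat 8, .ofNat 5, .negSucc 6, .negSucc 6, .negSucc 1], [.ofNat 3, .ofNat 8, .ofNat 4, .negSucc 5, .negSucc 6, .negSucc 1], [.ofNat 3, .ofNat 8, .ofNat 4, .negSucc 6, .negSucc 5, .negSucc 1], [.ofNat 3, .ofNat 8, .ofNat 4, .negSucc 6, .negSucc 6, .negSucc 0], [.ofNat 3, .ofNat 8, .ofNat 4, .negSucc 7, .negSucc 5, .negSucc 0], [.ofNat 3,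 .ofNat 8, .ofNat 3, .negSucc 6, .negSucc 5, .negSucc 0], [.ofNat 3, .ofNat 8, .ofNat 3, .negSucc 7, .negSucc 4, .negSucc 0], [.ofNat 3, .ofNat 8, .ofNat 2, .negSucc 6, .negSucc 4, .negSucc 0], [.ofNat 3, .ofNat 7, .ofNat 3, .negSucc 6, .negSucc 4, .negSucc 0], [.ofNat 3, .ofNat 7, .ofNat 2, .negSucc 5, .negSucc 4, .negSucc 0], [.ofNat 3, .ofNat 6, .ofNat 3, .negSucc 5, .negSucc 4, .negSucc 0], [.ofNat 2, .ofNat 7, .ofNat 3, .negSucc 5, .negSucc 4, .negSucc 0], [.ofNat 2, .ofNat 6, .ofNat 4, .negSucc 5, .negSucc 4, .negSucc 0], [.ofNat 2, .ofNat 6, .ofNat 3, .negSucc 4, .negSucc 4, .negSucc 0], [.ofNat 2, .ofNat 5, .ofNat 4, .negSucc 4, .negSucc 4, .negSucc 0], [.ofNat 2, .ofNat 5, .ofNat 3, .negSucc 3, .negSucc 4, .negSucc 0], [.ofNat 2, .ofNat 5, .ofNat 3, .negSucc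 4, .negSucc 3, .negSucc 0], [.ofNat 2, .ofNat 5, .ofNat 2, .negSucc 3, .negSucc 3, .negSucc 0], [.ofNat 2, .ofNat 5, .ofNat 2, .negSucc 4, .negSucc 2, .negSucc 0], [.ofNat 2, .ofNat 5, .ofNat 2, .negSucc 4, .negSucc 3, .ofNat 0], [.ofNat 2, .ofNat 5, .ofNat 2, .negSucc 5, .negSucc 2, .ofNat 0], [.ofNat 2, .ofNat 5, .ofNat 1, .negSucc 4, .negSucc 2, .ofNat 0], [.ofNat 2, .ofNat 5, .ofNat 1, .negSucc 5, .negSucc 1, .ofNat 0], [.ofNat 2, .ofNat 5, .ofNat 0, .negSucc 4, .negSucc 1, .ofNat 0], [.ofNat 2, .ofNat 4, .ofNat 1, .negSucc 4, .negSucc 1, .ofNat 0], [.ofNat 2, .ofNat 4, .ofNat 0, .negSucc 3, .negSucc 1, .ofNat 0], [.ofNat 2, .ofNat 3, .ofNat 1, .negSucc 3, .negSucc 1, .ofNat 0], [.ofNat 1, .ofNat 4, .ofNat 1, .negSucc 3, .negSucc 1, .ofNat 0], [.ofNat 1,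 .ofNat 3, .ofNat 2, .negSucc 3, .negSucc 1, .ofNat 0], [.ofNat 1, .ofNat 3, .ofNat 1, .negSucc 2, .negSucc 1, .ofNat 0], [.ofNat 1, .ofNat 2, .ofNat 2, .negSucc 2, .negSucc 1, .ofNat 0], [.ofNat 0, .ofNat 3, .ofNat 2, .negSucc 2, .negSucc 1, .ofNat 0], [.ofNat 0, .ofNat 2, .ofNat 3, .negSucc 2, .negSucc 1, .ofNat 0], [.ofNat 0, .ofNat 2, .ofNat 2, .negSucc 1, .negSucc 1, .ofNat 0], [.ofNat 0, .ofNat 1, .ofNat 3, .negSucc 1, .negSucc 1, .ofNat 0], [.ofNat 0, .ofNat 1, .ofNat 2, .negSucc 0, .negSucc 1, .ofNat 0], [.ofNat 0, .ofNat 1, .ofNat 2, .negSucc 1, .negSucc 0, .ofNat 0], [.ofNat 0, .ofNat 1, .ofNat 1, .negSucc 0, .negSucc 0, .ofNat 0], [.ofNat 0, .ofNat 1, .ofNat 1, .negSucc 1, .ofNat 0, .ofNat 0], [.ofNat 0, .ofNat 1, .ofNat 0, .negSucc 0, .ofNat 0, .ofNat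 0], [.ofNat 0, .ofNat 0, .ofNat 1, .negSucc 0, .ofNat 0, .ofNat 0], [.ofNat 0, .ofNat 0, .ofNat 0, .ofNat 0, .ofNat 0, .ofNat 0]],
  [[.ofNat 3, .ofNat 7, .ofNat 6, .negSucc 4, .negSucc 7, .negSucc 2], [.ofNat 2, .ofNat 8, .ofNat 6, .negSucc 4, .negSucc 7, .negSucc 2], [.ofNat 2, .ofNat 7, .ofNat 7, .negSucc 4, .negSucc 7, .negSucc 2], [.ofNat 2, .ofNat 7, .ofNat 6, .negSucc 3, .negSucc 7, .negSucc 2], [.ofNat 2, .ofNat 6, .ofNat 7, .negSucc 3, .negSucc 7, .negSucc 2], [.ofNat 1, .ofNat 7, .ofNat 7, .negSucc 3, .negSucc 7, .negSucc 2], [.ofNat 1, .ofNat 6, .ofNat 8, .negSucc 3, .negSucc 7, .negSucc 2], [.ofNat 1, .ofNat 6, .ofNat 7, .negSucc 2, .negSucc 7, .negSucc 2], [.ofNat 1, .ofNat 5, .ofNat 8, .negSucc 2, .negSucc 7, .negSucc 2], [.ofNat 1, .ofNat 5, .ofNat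 7, .negSucc 1, .negSucc 7, .negSucc 2], [.ofNat 1, .ofNat 5, .ofNat 7, .negSucc 2, .negSucc 6, .negSucc 2], [.ofNat 1, .ofNat 5, .ofNat 6, .negSucc 1, .negSucc 6, .negSucc 2], [.ofNat 1, .ofNat 5, .ofNat 6, .negSucc 2, .negSucc 5, .negSucc 2], [.ofNat 1, .ofNat 5, .ofNat 6, .negSucc 2, .negSucc 6, .negSucc 1], [.ofNat 1, .ofNat 5, .ofNat 6, .negSucc 3, .negSucc 5, .negSucc 1], [.ofNat 1, .ofNat 5, .ofNat 5, .negSucc 2, .negSucc 5, .negSucc 1], [.ofNat 1, .ofNat 5, .ofNat 5, .negSucc 3, .negSucc 4, .negSucc 1], [.ofNat 1, .ofNat 5, .ofNat 4, .negSucc 2, .negSucc 4, .negSucc 1], [.ofNat 1, .ofNat 4, .ofNat 5, .negSucc 2, .negSucc 4, .negSucc 1], [.ofNat 1, .ofNat 4, .ofNat 4, .negSucc 1, .negSucc 4, .negSucc 1], [.ofNat 1, .ofNat 3, .ofNat 5, .negSucc 1, .negSucc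 4, .negSucc 1], [.ofNat 0, .ofNat 4, .ofNat 5, .negSucc 1, .negSucc 4, .negSucc 1], [.ofNat 0, .ofNat 3, .ofNat 6, .negSucc 1, .negSucc 4, .negSucc 1], [.ofNat 0, .ofNat 3, .ofNat 5, .negSucc 0, .negSucc 4, .negSucc 1], [.ofNat 0, .ofNat 2, .ofNat 6, .negSucc 0, .negSucc 4, .negSucc 1], [.ofNat 0, .ofNat 2, .ofNat 5, .ofNat 0, .negSucc 4, .negSucc 1], [.ofNat 0, .ofNat 2, .ofNat 5, .negSucc 0, .negSucc 3, .negSucc 1], [.ofNat 0, .ofNat 2, .ofNat 4, .ofNat 0, .negSucc 3, .negSucc 1], [.ofNat 0, .ofNat 2, .ofNat 4, .negSucc 0, .negSucc 2, .negSucc 1], [.ofNat 0, .ofNat 2, .ofNat 4, .negSucc 0, .negSucc 3, .negSucc 0], [.ofNat 0, .ofNat 2, .ofNat 4, .negSucc 1, .negSucc 2, .negSucc 0], [.ofNat 0, .ofNat 2, .ofNat 3, .negSucc 0, .negSucc 2, .negSucc 0], [.ofNat 0,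 .ofNat 2, .ofNat 3, .negSucc 1, .negSucc 1, .negSucc 0], [.ofNat 0, .ofNat 2, .ofNat 3, .negSucc 1, .negSucc 2, .ofNat 0], [.ofNat 0, .ofNat 2, .ofNat 3, .negSucc 2, .negSucc 1, .ofNat 0], [.ofNat 0, .ofNat 2, .ofNat 2, .negSucc 1, .negSucc 1, .ofNat 0], [.ofNat 0, .ofNat 2, .ofNat 2, .negSucc 2, .negSucc 0, .ofNat 0], [.ofNat 0, .ofNat 2, .ofNat 1, .negSucc 1, .negSucc 0, .ofNat 0], [.ofNat 0, .ofNat 1, .ofNat 2, .negSucc 1, .negSucc 0, .ofNat 0], [.ofNat 0, .ofNat 1, .ofNat 1, .negSucc 0, .negSucc 0, .ofNat 0], [.ofNat 0, .ofNat 0, .ofNat 2, .negSucc 0, .negSucc 0, .ofNat 0], [.ofNat 0, .ofNat 0, .ofNat 1, .ofNat 0, .negSucc 0, .ofNat 0], [.ofNat 0, .ofNat 0, .ofNat 1, .negSucc 0, .ofNat 0, .ofNat 0], [.ofNat 0, .ofNat 0, .ofNat 0, .ofNat 0, .ofNat 0, .ofNat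 0]],
  [[.ofNat 3, .ofNat 8, .ofNat 5, .negSucc 5, .negSucc 6, .negSucc 2], [.ofNat 3, .ofNat 8, .ofNat 5, .negSucc 5, .negSucc 7, .negSucc 1], [.ofNat 3, .ofNat 8, .ofNat 5, .negSucc 6, .negSucc 6, .negSucc 1], [.ofNat 3, .ofNat 8, .ofNat 4, .negSucc 5, .negSucc 6, .negSucc 1], [.ofNat 3, .ofNat 8, .ofNat 4, .negSucc 6, .negSucc 5, .negSucc 1], [.ofNat 3, .ofNat 8, .ofNat 4, .negSucc 6, .negSucc 6, .negSucc 0], [.ofNat 3, .ofNat 8, .ofNat 4, .negSucc 7, .negSucc 5, .negSucc 0], [.ofNat 3, .ofNat 8, .ofNat 3, .negSucc 6, .negSucc 5, .negSucc 0], [.ofNat 3, .ofNat 8, .ofNat 3, .negSucc 7, .negSucc 4, .negSucc 0], [.ofNat 3, .ofNat 8, .ofNat 2, .negSucc 6, .negSucc 4, .negSucc 0], [.ofNat 3, .ofNat 7, .ofNat 3, .negSucc 6, .negSucc 4, .negSucc 0], [.ofNat 3, .ofNat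 7, .ofNat 2, .negSucc 5, .negSucc 4, .negSucc 0], [.ofNat 3, .ofNat 6, .ofNat 3, .negSucc 5, .negSucc 4, .negSucc 0], [.ofNat 2, .ofNat 7, .ofNat 3, .negSucc 5, .negSucc 4, .negSucc 0], [.ofNat 2, .ofNat 6, .ofNat 4, .negSucc 5, .negSucc 4, .negSucc 0], [.ofNat 2, .ofNat 6, .ofNat 3, .negSucc 4, .negSucc 4, .negSucc 0], [.ofNat 2, .ofNat 5, .ofNat 4, .negSucc 4, .negSucc 4, .negSucc 0], [.ofNat 2, .ofNat 5, .ofNat 3, .negSucc 3, .negSucc 4, .negSucc 0], [.ofNat 2, .ofNat 5, .ofNat 3, .negSucc 4, .negSucc 3, .negSucc 0], [.ofNat 2, .ofNat 5, .ofNat 2, .negSucc 3, .negSucc 3, .negSucc 0], [.ofNat 2, .ofNat 5, .ofNat 2, .negSucc 4, .negSucc 2, .negSucc 0], [.ofNat 2, .ofNat 5, .ofNat 2, .negSucc 4, .negSucc 3, .ofNat 0], [.ofNat 2, .ofNat 5, .ofNat 2, .negSucc 5,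 .negSucc 2, .ofNat 0], [.ofNat 2, .ofNat 5, .ofNat 1, .negSucc 4, .negSucc 2, .ofNat 0], [.ofNat 2, .ofNat 5, .ofNat 1, .negSucc 5, .negSucc 1, .ofNat 0], [.ofNat 2, .ofNat 5, .ofNat 0, .negSucc 4, .negSucc 1, .ofNat 0], [.ofNat 2, .ofNat 4, .ofNat 1, .negSucc 4, .negSucc 1, .ofNat 0], [.ofNat 2, .ofNat 4, .ofNat 0, .negSucc 3, .negSucc 1, .ofNat 0], [.ofNat 2, .ofNat 3, .ofNat 1, .negSucc 3, .negSucc 1, .ofNat 0], [.ofNat 1, .ofNat 4, .ofNat 1, .negSucc 3, .negSucc 1, .ofNat 0], [.ofNat 1, .ofNat 3, .ofNat 2, .negSucc 3, .negSucc 1, .ofNat 0], [.ofNat 1, .ofNat 3, .ofNat 1, .negSucc 2, .negSucc 1, .ofNat 0], [.ofNat 1, .ofNat 2, .ofNat 2, .negSucc 2, .negSucc 1, .ofNat 0], [.ofNat 0, .ofNat 3, .ofNat 2, .negSucc 2, .negSucc 1, .ofNat 0], [.ofNat 0, .ofNat 2,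 .ofNat 3, .negSucc 2, .negSucc 1, .ofNat 0], [.ofNat 0, .ofNat 2, .ofNat 2, .negSucc 1, .negSucc 1, .ofNat 0], [.ofNat 0, .ofNat 1, .ofNat 3, .negSucc 1, .negSucc 1, .ofNat 0], [.ofNat 0, .ofNat 1, .ofNat 2, .negSucc 0, .negSucc 1, .ofNat 0], [.ofNat 0, .ofNat 1, .ofNat 2, .negSucc 1, .negSucc 0, .ofNat 0], [.ofNat 0, .ofNat 1, .ofNat 1, .negSucc 0, .negSucc 0, .ofNat 0], [.ofNat 0, .ofNat 1, .ofNat 1, .negSucc 1, .ofNat 0, .ofNat 0], [.ofNat 0, .ofNat 1, .ofNat 0, .negSucc 0, .ofNat 0, .ofNat 0], [.ofNat 0, .ofNat 0, .ofNat 1, .negSucc 0, .ofNat 0, .ofNat 0], [.ofNat 0, .ofNat 0, .ofNat 0, .ofNat 0, .ofNat 0, .ofNat 0]],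
  [[.ofNat 3, .ofNat 7, .ofNat 6, .negSucc 4, .negSucc 7, .negSucc 2], [.ofNat 2, .ofNat 8, .ofNat 6, .negSucc 4, .negSucc 7, .negSucc 2], [.ofNat 2, .ofNat 7, .ofNat 7, .negSucc 4, .negSucc 7, .negSucc 2], [.ofNat 2, .ofNat 7, .ofNat 6, .negSucc 3, .negSucc 7, .negSucc 2], [.ofNat 2, .ofNat 6, .ofNat 7, .negSucc 3, .negSucc 7, .negSucc 2], [.ofNat 1, .ofNat 7, .ofNat 7, .negSucc 3, .negSucc 7, .negSucc 2], [.ofNat 1, .ofNat 6, .ofNat 8, .negSucc 3, .negSucc 7, .negSucc 2], [.ofNat 1, .ofNat 6, .ofNat 7, .negSucc 2, .negSucc 7, .negSucc 2], [.ofNat 1, .ofNat 5, .ofNat 8, .negSucc 2, .negSucc 7, .negSucc 2], [.ofNat 1, .ofNat 5, .ofNat 7, .negSucc 1, .negSucc 7, .negSucc 2], [.ofNat 1, .ofNat 5, .ofNat 7, .negSucc 2, .negSucc 6, .negSucc 2], [.ofNat 1, .ofNat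 5, .ofNat 6, .negSucc 1, .negSucc 6, .negSucc 2], [.ofNat 1, .ofNat 5, .ofNat 6, .negSucc 2, .negSucc 5, .negSucc 2], [.ofNat 1, .ofNat 5, .ofNat 6, .negSucc 2, .negSucc 6, .negSucc 1], [.ofNat 1, .ofNat 5, .ofNat 6, .negSucc 3, .negSucc 5, .negSucc 1], [.ofNat 1, .ofNat 5, .ofNat 5, .negSucc 2, .negSucc 5, .negSucc 1], [.ofNat 1, .ofNat 5, .ofNat 5, .negSucc 3, .negSucc 4, .negSucc 1], [.ofNat 1, .ofNat 5, .ofNat 4, .negSucc 2, .negSucc 4, .negSucc 1], [.ofNat 1, .ofNat 4, .ofNat 5, .negSucc 2, .negSucc 4, .negSucc 1], [.ofNat 1, .ofNat 4, .ofNat 4, .negSucc 1, .negSucc 4, .negSucc 1], [.ofNat 1, .ofNat 3, .ofNat 5, .negSucc 1, .negSucc 4, .negSucc 1], [.ofNat 0, .ofNat 4, .ofNat 5, .negSucc 1, .negSucc 4, .negSucc 1], [.ofNat 0, .ofNat 3, .ofNat 6, .negSucc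 1, .negSucc 4, .negSucc 1], [.ofNat 0, .ofNat 3, .ofNat 5, .negSucc 0, .negSucc 4, .negSucc 1], [.ofNat 0, .ofNat 2, .ofNat 6, .negSucc 0, .negSucc 4, .negSucc 1], [.ofNat 0, .ofNat 2, .ofNat 5, .ofNat 0, .negSucc 4, .negSucc 1], [.ofNat 0, .ofNat 2, .ofNat 5, .negSucc 0, .negSucc 3, .negSucc 1], [.ofNat 0, .ofNat 2, .ofNat 4, .ofNat 0, .negSucc 3, .negSucc 1], [.ofNat 0, .ofNat 2, .ofNat 4, .negSucc 0, .negSucc 2, .negSucc 1], [.ofNat 0, .ofNat 2, .ofNat 4, .negSucc 0, .negSucc 3, .negSucc 0], [.ofNat 0, .ofNat 2, .ofNat 4, .negSucc 1, .negSucc 2, .negSucc 0], [.ofNat 0, .ofNat 2, .ofNat 3, .negSucc 0, .negSucc 2, .negSucc 0], [.ofNat 0, .ofNat 2, .ofNat 3, .negSucc 1, .negSucc 1, .negSucc 0], [.ofNat 0, .ofNat 2, .ofNat 3, .negSucc 1, .negSucc 2, .ofNat 0],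 [.ofNat 0, .ofNat 2, .ofNat 3, .negSucc 2, .negSucc 1, .ofNat 0], [.ofNat 0, .ofNat 2, .ofNat 2, .negSucc 1, .negSucc 1, .ofNat 0], [.ofNat 0, .ofNat 2, .ofNat 2, .negSucc 2, .negSucc 0, .ofNat 0], [.ofNat 0, .ofNat 2, .ofNat 1, .negSucc 1, .negSucc 0, .ofNat 0], [.ofNat 0, .ofNat 1, .ofNat 2, .negSucc 1, .negSucc 0, .ofNat 0], [.ofNat 0, .ofNat 1, .ofNat 1, .negSucc 0, .negSucc 0, .ofNat 0], [.ofNat 0, .ofNat 0, .ofNat 2, .negSucc 0, .negSucc 0, .ofNat 0], [.ofNat 0, .ofNat 0, .ofNat 1, .ofNat 0, .negSucc 0, .ofNat 0], [.ofNat 0, .ofNat 0, .ofNat 1, .negSucc 0, .ofNat 0, .ofNat 0], [.ofNat 0, .ofNat 0, .ofNat 0, .ofNat 0, .ofNat 0, .ofNat 0]]]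
def NBL : List (List (List ℤ)) := [[[.ofNat 0, .ofNat 0, .ofNat 0, .ofNat 0, .ofNat 0, .ofNat 0], [.ofNat 0, .ofNat 0, .ofNat 0, .ofNat 1, .negSucc 0, .ofNat 0], [.ofNat 0, .ofNat 0, .ofNat 0, .ofNat 1, .ofNat 0, .negSucc 0], [.ofNat 0, .ofNat 0, .ofNat 0, .ofNat 2, .negSucc 0, .negSucc 0], [.ofNat 0, .ofNat 0, .ofNat 1, .ofNat 1, .negSucc 0, .negSucc 0], [.ofNat 0, .ofNat 0, .ofNat 1, .ofNat 2, .negSucc 1, .negSucc 0], [.ofNat 0, .ofNat 0, .ofNat 1, .ofNat 2, .negSucc 0, .negSucc 1], [.ofNat 0, .ofNat 0, .ofNat 1, .ofNat 3, .negSucc 1, .negSucc 1], [.ofNat 0, .ofNat 0, .ofNat 2, .ofNat 2, .negSucc 1, .negSucc 1], [.ofNat 0, .ofNat 0, .ofNat 2, .ofNat 3, .negSucc 2, .negSucc 1], [.ofNat 0, .ofNat 0, .ofNat 3, .ofNat 2, .negSucc 2, .negSucc 1], [.ofNat 0, .ofNat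 1, .ofNat 2, .ofNat 2, .negSucc 2, .negSucc 1], [.ofNat 0, .ofNat 1, .ofNat 3, .ofNat 1, .negSucc 2, .negSucc 1], [.ofNat 0, .ofNat 2, .ofNat 2, .ofNat 1, .negSucc 2, .negSucc 1], [.ofNat 1, .ofNat 1, .ofNat 2, .ofNat 1, .negSucc 2, .negSucc 1], [.ofNat 1, .ofNat 2, .ofNat 1, .ofNat 1, .negSucc 2, .negSucc 1], [.ofNat 1, .ofNat 2, .ofNat 2, .ofNat 0, .negSucc 2, .negSucc 1], [.ofNat 1, .ofNat 3, .ofNat 1, .ofNat 0, .negSucc 2, .negSucc 1], [.ofNat 1, .ofNat 3, .ofNat 2, .negSucc 0, .negSucc 2, .negSucc 1], [.ofNat 1, .ofNat 3, .ofNat 2, .ofNat 0, .negSucc 3, .negSucc 1], [.ofNat 1, .ofNat 3, .ofNat 3, .negSucc 0, .negSucc 3, .negSucc 1], [.ofNat 1, .ofNat 3, .ofNat 3, .ofNat 0, .negSucc 4, .negSucc 1], [.ofNat 1, .ofNat 3, .ofNat 3, .ofNat 0, .negSucc 3, .negSucc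 2], [.ofNat 1, .ofNat 3, .ofNat 3, .ofNat 1, .negSucc 4, .negSucc 2], [.ofNat 1, .ofNat 3, .ofNat 4, .ofNat 0, .negSucc 4, .negSucc 2], [.ofNat 1, .ofNat 3, .ofNat 4, .ofNat 1, .negSucc 5, .negSucc 2], [.ofNat 1, .ofNat 3, .ofNat 5, .ofNat 0, .negSucc 5, .negSucc 2], [.ofNat 1, .ofNat 4, .ofNat 4, .ofNat 0, .negSucc 5, .negSucc 2], [.ofNat 1, .ofNat 4, .ofNat 5, .negSucc 0, .negSucc 5, .negSucc 2], [.ofNat 1, .ofNat 5, .ofNat 4, .negSucc 0, .negSucc 5, .negSucc 2], [.ofNat 2, .ofNat 4, .ofNat 4, .negSucc 0, .negSucc 5, .negSucc 2], [.ofNat 2, .ofNat 5, .ofNat 3, .negSucc 0, .negSucc 5, .negSucc 2], [.ofNat 2, .ofNat 5, .ofNat 4, .negSucc 1, .negSucc 5, .negSucc 2], [.ofNat 2, .ofNat 6, .ofNat 3, .negSucc 1, .negSucc 5, .negSucc 2], [.ofNat 3, .ofNat 5, .ofNat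 3, .negSucc 1, .negSucc 5, .negSucc 2], [.ofNat 3, .ofNat 6, .ofNat 2, .negSucc 1, .negSucc 5, .negSucc 2], [.ofNat 3, .ofNat 6, .ofNat 3, .negSucc 2, .negSucc 5, .negSucc 2], [.ofNat 3, .ofNat 7, .ofNat 2, .negSucc 2, .negSucc 5, .negSucc 2], [.ofNat 3, .ofNat 7, .ofNat 3, .negSucc 3, .negSucc 5, .negSucc 2], [.ofNat 3, .ofNat 7, .ofNat 3, .negSucc 2, .negSucc 6, .negSucc 2], [.ofNat 3, .ofNat 7, .ofNat 4, .negSucc 3, .negSucc 6, .negSucc 2], [.ofNat 3, .ofNat 7, .ofNat 4, .negSucc 2, .negSucc 7, .negSucc 2], [.ofNat 3, .ofNat 7, .ofNat 5, .negSucc 3, .negSucc 7, .negSucc 2], [.ofNat 3, .ofNat 8, .ofNat 4, .negSucc 3, .negSucc 7, .negSucc 2], [.ofNat 3, .ofNat 8, .ofNat 5, .negSucc 4, .negSucc 7, .negSucc 2]],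
  [[.ofNat 0, .ofNat 0, .ofNat 0, .ofNat 0, .ofNat 0, .ofNat 0], [.ofNat 0, .ofNat 1, .negSucc 0, .ofNat 0, .ofNat 0, .ofNat 0], [.ofNat 1, .ofNat 0, .negSucc 0, .ofNat 0, .ofNat 0, .ofNat 0], [.ofNat 1, .ofNat 1, .negSucc 1, .ofNat 0, .ofNat 0, .ofNat 0], [.ofNat 1, .ofNat 1, .negSucc 0, .negSucc 0, .ofNat 0, .ofNat 0], [.ofNat 1, .ofNat 2, .negSucc 1, .negSucc 0, .ofNat 0, .ofNat 0], [.ofNat 2, .ofNat 1, .negSucc 1, .negSucc 0, .ofNat 0, .ofNat 0], [.ofNat 2, .ofNat 2, .negSucc 2, .negSucc 0, .ofNat 0, .ofNat 0], [.ofNat 2, .ofNat 2, .negSucc 1, .negSucc 1, .ofNat 0, .ofNat 0], [.ofNat 2, .ofNat 3, .negSucc 2, .negSucc 1, .ofNat 0, .ofNat 0], [.ofNat 2, .ofNat 3, .negSucc 1, .negSucc 2, .ofNat 0, .ofNat 0], [.ofNat 2, .ofNat 3, .negSucc 1, .negSucc 1, .negSucc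 0, .ofNat 0], [.ofNat 2, .ofNat 3, .negSucc 0, .negSucc 2, .negSucc 0, .ofNat 0], [.ofNat 2, .ofNat 3, .negSucc 0, .negSucc 1, .negSucc 1, .ofNat 0], [.ofNat 2, .ofNat 3, .negSucc 0, .negSucc 1, .negSucc 0, .negSucc 0], [.ofNat 2, .ofNat 3, .negSucc 0, .negSucc 0, .negSucc 1, .negSucc 0], [.ofNat 2, .ofNat 3, .ofNat 0, .negSucc 1, .negSucc 1, .negSucc 0], [.ofNat 2, .ofNat 3, .ofNat 0, .negSucc 0, .negSucc 2, .negSucc 0], [.ofNat 2, .ofNat 3, .ofNat 1, .negSucc 1, .negSucc 2, .negSucc 0], [.ofNat 2, .ofNat 4, .ofNat 0, .negSucc 1, .negSucc 2, .negSucc 0], [.ofNat 2, .ofNat 4, .ofNat 1, .negSucc 2, .negSucc 2, .negSucc 0], [.ofNat 2, .ofNat 5, .ofNat 0, .negSucc 2, .negSucc 2, .negSucc 0], [.ofNat 3, .ofNat 4, .ofNat 0, .negSucc 2, .negSucc 2, .negSucc 0], [.ofNat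 3, .ofNat 5, .negSucc 0, .negSucc 2, .negSucc 2, .negSucc 0], [.ofNat 3, .ofNat 5, .ofNat 0, .negSucc 3, .negSucc 2, .negSucc 0], [.ofNat 3, .ofNat 6, .negSucc 0, .negSucc 3, .negSucc 2, .negSucc 0], [.ofNat 3, .ofNat 6, .ofNat 0, .negSucc 4, .negSucc 2, .negSucc 0], [.ofNat 3, .ofNat 6, .ofNat 0, .negSucc 3, .negSucc 3, .negSucc 0], [.ofNat 3, .ofNat 6, .ofNat 1, .negSucc 4, .negSucc 3, .negSucc 0], [.ofNat 3, .ofNat 6, .ofNat 1, .negSucc 3, .negSucc 4, .negSucc 0], [.ofNat 3, .ofNat 6, .ofNat 1, .negSucc 3, .negSucc 3, .negSucc 1], [.ofNat 3, .ofNat 6, .ofNat 1, .negSucc 2, .negSucc 4, .negSucc 1], [.ofNat 3, .ofNat 6, .ofNat 2, .negSucc 3, .negSucc 4, .negSucc 1], [.ofNat 3, .ofNat 6, .ofNat 2, .negSucc 2, .negSucc 5, .negSucc 1], [.ofNat 3, .ofNat 6, .ofNat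 2, .negSucc 2, .negSucc 4, .negSucc 2], [.ofNat 3, .ofNat 6, .ofNat 2, .negSucc 1, .negSucc 5, .negSucc 2], [.ofNat 3, .ofNat 6, .ofNat 3, .negSucc 2, .negSucc 5, .negSucc 2], [.ofNat 3, .ofNat 6, .ofNat 3, .negSucc 1, .negSucc 6, .negSucc 2], [.ofNat 3, .ofNat 6, .ofNat 4, .negSucc 2, .negSucc 6, .negSucc 2], [.ofNat 3, .ofNat 7, .ofNat 3, .negSucc 2, .negSucc 6, .negSucc 2], [.ofNat 3, .ofNat 7, .ofNat 4, .negSucc 3, .negSucc 6, .negSucc 2], [.ofNat 3, .ofNat 8, .ofNat 3, .negSucc 3, .negSucc 6, .negSucc 2], [.ofNat 3, .ofNat 8, .ofNat 4, .negSucc 4, .negSucc 6, .negSucc 2], [.ofNat 3, .ofNat 8, .ofNat 4, .negSucc 3, .negSucc 7, .negSucc 2], [.ofNat 3, .ofNat 8, .ofNat 5, .negSucc 4, .negSucc 7, .negSucc 2]],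
  [[.ofNat 0, .ofNat 0, .ofNat 0, .ofNat 0, .ofNat 0, .ofNat 0], [.ofNat 0, .ofNat 0, .ofNat 0, .ofNat 1, .negSucc 0, .ofNat 0], [.ofNat 0, .ofNat 0, .ofNat 0, .ofNat 1, .ofNat 0, .negSucc 0], [.ofNat 0, .ofNat 0, .ofNat 0, .ofNat 2, .negSucc 0, .negSucc 0], [.ofNat 0, .ofNat 0, .ofNat 1, .ofNat 1, .negSucc 0, .negSucc 0], [.ofNat 0, .ofNat 0, .ofNat 1, .ofNat 2, .negSucc 1, .negSucc 0], [.ofNat 0, .ofNat 0, .ofNat 1, .ofNat 2, .negSucc 0, .negSucc 1], [.ofNat 0, .ofNat 0, .ofNat 1, .ofNat 3, .negSucc 1, .negSucc 1], [.ofNat 0, .ofNat 0, .ofNat 2, .ofNat 2, .negSucc 1, .negSucc 1], [.ofNat 0, .ofNat 0, .ofNat 2, .ofNat 3, .negSucc 2, .negSucc 1], [.ofNat 0, .ofNat 0, .ofNat 3, .ofNat 2, .negSucc 2, .negSucc 1], [.ofNat 0, .ofNat 1, .ofNat 2, .ofNat 2, .negSucc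 2, .negSucc 1], [.ofNat 0, .ofNat 1, .ofNat 3, .ofNat 1, .negSucc 2, .negSucc 1], [.ofNat 0, .ofNat 2, .ofNat 2, .ofNat 1, .negSucc 2, .negSucc 1], [.ofNat 1, .ofNat 1, .ofNat 2, .ofNat 1, .negSucc 2, .negSucc 1], [.ofNat 1, .ofNat 2, .ofNat 1, .ofNat 1, .negSucc 2, .negSucc 1], [.ofNat 1, .ofNat 2, .ofNat 2, .ofNat 0, .negSucc 2, .negSucc 1], [.ofNat 1, .ofNat 3, .ofNat 1, .ofNat 0, .negSucc 2, .negSucc 1], [.ofNat 1, .ofNat 3, .ofNat 2, .negSucc 0, .negSucc 2, .negSucc 1], [.ofNat 1, .ofNat 3, .ofNat 2, .ofNat 0, .negSucc 3, .negSucc 1], [.ofNat 1, .ofNat 3, .ofNat 3, .negSucc 0, .negSucc 3, .negSucc 1], [.ofNat 1, .ofNat 3, .ofNat 3, .ofNat 0, .negSucc 4, .negSucc 1], [.ofNat 1, .ofNat 3, .ofNat 3, .ofNat 0, .negSucc 3, .negSucc 2], [.ofNat 1, .ofNat 3, .ofNat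 3, .ofNat 1, .negSucc 4, .negSucc 2], [.ofNat 1, .ofNat 3, .ofNat 4, .ofNat 0, .negSucc 4, .negSucc 2], [.ofNat 1, .ofNat 3, .ofNat 4, .ofNat 1, .negSucc 5, .negSucc 2], [.ofNat 1, .ofNat 3, .ofNat 5, .ofNat 0, .negSucc 5, .negSucc 2], [.ofNat 1, .ofNat 4, .ofNat 4, .ofNat 0, .negSucc 5, .negSucc 2], [.ofNat 1, .ofNat 4, .ofNat 5, .negSucc 0, .negSucc 5, .negSucc 2], [.ofNat 1, .ofNat 5, .ofNat 4, .negSucc 0, .negSucc 5, .negSucc 2], [.ofNat 2, .ofNat 4, .ofNat 4, .negSucc 0, .negSucc 5, .negSucc 2], [.ofNat 2, .ofNat 5, .ofNat 3, .negSucc 0, .negSucc 5, .negSucc 2], [.ofNat 2, .ofNat 5, .ofNat 4, .negSucc 1, .negSucc 5, .negSucc 2], [.ofNat 2, .ofNat 6, .ofNat 3, .negSucc 1, .negSucc 5, .negSucc 2], [.ofNat 3, .ofNat 5, .ofNat 3, .negSucc 1, .negSucc 5, .negSucc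 2], [.ofNat 3, .ofNat 6, .ofNat 2, .negSucc 1, .negSucc 5, .negSucc 2], [.ofNat 3, .ofNat 6, .ofNat 3, .negSucc 2, .negSucc 5, .negSucc 2], [.ofNat 3, .ofNat 7, .ofNat 2, .negSucc 2, .negSucc 5, .negSucc 2], [.ofNat 3, .ofNat 7, .ofNat 3, .negSucc 3, .negSucc 5, .negSucc 2], [.ofNat 3, .ofNat 7, .ofNat 3, .negSucc 2, .negSucc 6, .negSucc 2], [.ofNat 3, .ofNat 7, .ofNat 4, .negSucc 3, .negSucc 6, .negSucc 2], [.ofNat 3, .ofNat 7, .ofNat 4, .negSucc 2, .negSucc 7, .negSucc 2], [.ofNat 3, .ofNat 7, .ofNat 5, .negSucc 3, .negSucc 7, .negSucc 2], [.ofNat 3, .ofNat 8, .ofNat 4, .negSucc 3, .negSucc 7, .negSucc 2], [.ofNat 3, .ofNat 8, .ofNat 5, .negSucc 4, .negSucc 7, .negSucc 2]],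
  [[.ofNat 0, .ofNat 0, .ofNat 0, .ofNat 0, .ofNat 0, .ofNat 0], [.ofNat 0, .ofNat 1, .negSucc 0, .ofNat 0, .ofNat 0, .ofNat 0], [.ofNat 1, .ofNat 0, .negSucc 0, .ofNat 0, .ofNat 0, .ofNat 0], [.ofNat 1, .ofNat 1, .negSucc 1, .ofNat 0, .ofNat 0, .ofNat 0], [.ofNat 1, .ofNat 1, .negSucc 0, .negSucc 0, .ofNat 0, .ofNat 0], [.ofNat 1, .ofNat 2, .negSucc 1, .negSucc 0, .ofNat 0, .ofNat 0], [.ofNat 2, .ofNat 1, .negSucc 1, .negSucc 0, .ofNat 0, .ofNat 0], [.ofNat 2, .ofNat 2, .negSucc 2, .negSucc 0, .ofNat 0, .ofNat 0], [.ofNat 2, .ofNat 2, .negSucc 1, .negSucc 1, .ofNat 0, .ofNat 0], [.ofNat 2, .ofNat 3, .negSucc 2, .negSucc 1, .ofNat 0, .ofNat 0], [.ofNat 2, .ofNat 3, .negSucc 1, .negSucc 2, .ofNat 0, .ofNat 0], [.ofNat 2, .ofNat 3, .negSucc 1, .negSucc 1, .negSucc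 0, .ofNat 0], [.ofNat 2, .ofNat 3, .negSucc 0, .negSucc 2, .negSucc 0, .ofNat 0], [.ofNat 2, .ofNat 3, .negSucc 0, .negSucc 1, .negSucc 1, .ofNat 0], [.ofNat 2, .ofNat 3, .negSucc 0, .negSucc 1, .negSucc 0, .negSucc 0], [.ofNat 2, .ofNat 3, .negSucc 0, .negSucc 0, .negSucc 1, .negSucc 0], [.ofNat 2, .ofNat 3, .ofNat 0, .negSucc 1, .negSucc 1, .negSucc 0], [.ofNat 2, .ofNat 3, .ofNat 0, .negSucc 0, .negSucc 2, .negSucc 0], [.ofNat 2, .ofNat 3, .ofNat 1, .negSucc 1, .negSucc 2, .negSucc 0], [.ofNat 2, .ofNat 4, .ofNat 0, .negSucc 1, .negSucc 2, .negSucc 0], [.ofNat 2, .ofNat 4, .ofNat 1, .negSucc 2, .negSucc 2, .negSucc 0], [.ofNat 2, .ofNat 5, .ofNat 0, .negSucc 2, .negSucc 2, .negSucc 0], [.ofNat 3, .ofNat 4, .ofNat 0, .negSucc 2, .negSucc 2, .negSucc 0], [.ofNat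 3, .ofNat 5, .negSucc 0, .negSucc 2, .negSucc 2, .negSucc 0], [.ofNat 3, .ofNat 5, .ofNat 0, .negSucc 3, .negSucc 2, .negSucc 0], [.ofNat 3, .ofNat 6, .negSucc 0, .negSucc 3, .negSucc 2, .negSucc 0], [.ofNat 3, .ofNat 6, .ofNat 0, .negSucc 4, .negSucc 2, .negSucc 0], [.ofNat 3, .ofNat 6, .ofNat 0, .negSucc 3, .negSucc 3, .negSucc 0], [.ofNat 3, .ofNat 6, .ofNat 1, .negSucc 4, .negSucc 3, .negSucc 0], [.ofNat 3, .ofNat 6, .ofNat 1, .negSucc 3, .negSucc 4, .negSucc 0], [.ofNat 3, .ofNat 6, .ofNat 1, .negSucc 3, .negSucc 3, .negSucc 1], [.ofNat 3, .ofNat 6, .ofNat 1, .negSucc 2, .negSucc 4, .negSucc 1], [.ofNat 3, .ofNat 6, .ofNat 2, .negSucc 3, .negSucc 4, .negSucc 1], [.ofNat 3, .ofNat 6, .ofNat 2, .negSucc 2, .negSucc 5, .negSucc 1], [.ofNat 3, .ofNat 6, .ofNat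 2, .negSucc 2, .negSucc 4, .negSucc 2], [.ofNat 3, .ofNat 6, .ofNat 2, .negSucc 1, .negSucc 5, .negSucc 2], [.ofNat 3, .ofNat 6, .ofNat 3, .negSucc 2, .negSucc 5, .negSucc 2], [.ofNat 3, .ofNat 6, .ofNat 3, .negSucc 1, .negSucc 6, .negSucc 2], [.ofNat 3, .ofNat 6, .ofNat 4, .negSucc 2, .negSucc 6, .negSucc 2], [.ofNat 3, .ofNat 7, .ofNat 3, .negSucc 2, .negSucc 6, .negSucc 2], [.ofNat 3, .ofNat 7, .ofNat 4, .negSucc 3, .negSucc 6, .negSucc 2], [.ofNat 3, .ofNat 8, .ofNat 3, .negSucc 3, .negSucc 6, .negSucc 2], [.ofNat 3, .ofNat 8, .ofNat 4, .negSucc 4, .negSucc 6, .negSucc 2], [.ofNat 3, .ofNat 8, .ofNat 4, .negSucc 3, .negSucc 7, .negSucc 2], [.ofNat 3, .ofNat 8, .ofNat 5, .negSucc 4, .negSucc 7, .negSucc 2]]]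
def NA (c : ℕ) := NAL.getD c []
def NB (c : ℕ) := NBL.getD c []
def PAL : List (List Ltr) := [[⟨0, .ofNat 1, [.ofNat 3, .ofNat 8, .ofNat 5, .negSucc 5, .negSucc 6, .negSucc 2]⟩, ⟨0, .ofNat 0, [.ofNat 3, .ofNat 8, .ofNat 4, .negSucc 5, .negSucc 6, .negSucc 1]⟩, ⟨0, .ofNat 0, [.ofNat 3, .ofNat 8, .ofNat 3, .negSucc 6, .negSucc 5, .negSucc 0]⟩, ⟨0, .negSucc 0, [.ofNat 3, .ofNat 7, .ofNat 3, .negSucc 6, .negSucc 4, .negSucc 0]⟩, ⟨0, .negSucc 1, [.ofNat 2, .ofNat 7, .ofNat 3, .negSucc 5, .negSucc 4, .negSucc 0]⟩, ⟨0, .negSucc 0, [.ofNat 2, .ofNat 5, .ofNat 4, .negSucc 4, .negSucc 4, .negSucc 0]⟩, ⟨0, .ofNat 0, [.ofNat 2, .ofNat 5, .ofNat 2, .negSucc 3, .negSucc 3, .negSucc 0]⟩, ⟨0, .ofNat 0, [.ofNat 2, .ofNat 5, .ofNat 1, .negSucc 4, .negSucc 2, .ofNat 0]⟩, ⟨0, .negSucc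 0, [.ofNat 2, .ofNat 4, .ofNat 1, .negSucc 4, .negSucc 1, .ofNat 0]⟩, ⟨0, .negSucc 1, [.ofNat 1, .ofNat 4, .ofNat 1, .negSucc 3, .negSucc 1, .ofNat 0]⟩, ⟨0, .negSucc 1, [.ofNat 0, .ofNat 3, .ofNat 2, .negSucc 2, .negSucc 1, .ofNat 0]⟩, ⟨0, .negSucc 0, [.ofNat 0, .ofNat 1, .ofNat 3, .negSucc 1, .negSucc 1, .ofNat 0]⟩, ⟨0, .ofNat 0, [.ofNat 0, .ofNat 1, .ofNat 1, .negSucc 0, .negSucc 0, .ofNat 0]⟩, ⟨0, .negSucc 0, [.ofNat 0, .ofNat 0, .ofNat 1, .negSucc 0, .ofNat 0, .ofNat 0]⟩, ⟨1, .negSucc 1, [.ofNat 2, .ofNat 8, .ofNat 6, .negSucc 4, .negSucc 7, .negSucc 2]⟩, ⟨1, .negSucc 1, [.ofNat 1, .ofNat 7, .ofNat 7, .negSucc 3, .negSucc 7, .negSucc 2]⟩, ⟨1, .negSucc 0, [.ofNat 1, .ofNat 5, .ofNat 8, .negSucc 2, .negSucc 7, .negSucc 2]⟩, ⟨1, .ofNat 0, [.ofNat 1, .ofNat 5,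 .ofNat 6, .negSucc 1, .negSucc 6, .negSucc 2]⟩, ⟨1, .ofNat 0, [.ofNat 1, .ofNat 5, .ofNat 5, .negSucc 2, .negSucc 5, .negSucc 1]⟩, ⟨1, .negSucc 0, [.ofNat 1, .ofNat 4, .ofNat 5, .negSucc 2, .negSucc 4, .negSucc 1]⟩, ⟨1, .negSucc 1, [.ofNat 0, .ofNat 4, .ofNat 5, .negSucc 1, .negSucc 4, .negSucc 1]⟩, ⟨1, .negSucc 0, [.ofNat 0, .ofNat 2, .ofNat 6, .negSucc 0, .negSucc 4, .negSucc 1]⟩, ⟨1, .ofNat 0, [.ofNat 0, .ofNat 2, .ofNat 4, .ofNat 0, .negSucc 3, .negSucc 1]⟩, ⟨1, .ofNat 0, [.ofNat 0, .ofNat 2, .ofNat 3, .negSucc 0, .negSucc 2, .negSucc 0]⟩, ⟨1, .ofNat 0, [.ofNat 0, .ofNat 2, .ofNat 2, .negSucc 1, .negSucc 1, .ofNat 0]⟩, ⟨1, .negSucc 0, [.ofNat 0, .ofNat 1, .ofNat 2, .negSucc 1, .negSucc 0, .ofNat 0]⟩, ⟨1, .negSucc 0, [.ofNat 0, .ofNat 0, .ofNat 2, .negSucc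 0, .negSucc 0, .ofNat 0]⟩, ⟨2, .ofNat 1, [.ofNat 3, .ofNat 8, .ofNat 5, .negSucc 5, .negSucc 6, .negSucc 2]⟩, ⟨2, .ofNat 0, [.ofNat 3, .ofNat 8, .ofNat 4, .negSucc 5, .negSucc 6, .negSucc 1]⟩, ⟨2, .ofNat 0, [.ofNat 3, .ofNat 8, .ofNat 3, .negSucc 6, .negSucc 5, .negSucc 0]⟩, ⟨2, .negSucc 0, [.ofNat 3, .ofNat 7, .ofNat 3, .negSucc 6, .negSucc 4, .negSucc 0]⟩, ⟨2, .negSucc 1, [.ofNat 2, .ofNat 7, .ofNat 3, .negSucc 5, .negSucc 4, .negSucc 0]⟩, ⟨2, .negSucc 0, [.ofNat 2, .ofNat 5, .ofNat 4, .negSucc 4, .negSucc 4, .negSucc 0]⟩, ⟨2, .ofNat 0, [.ofNat 2, .ofNat 5, .ofNat 2, .negSucc 3, .negSucc 3, .negSucc 0]⟩, ⟨2, .ofNat 0, [.ofNat 2, .ofNat 5, .ofNat 1, .negSucc 4, .negSucc 2, .ofNat 0]⟩, ⟨2, .negSucc 0, [.ofNat 2, .ofNat 4, .ofNat 1, .negSucc 4, .negSucc 1, .ofNat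 0]⟩, ⟨2, .negSucc 1, [.ofNat 1, .ofNat 4, .ofNat 1, .negSucc 3, .negSucc 1, .ofNat 0]⟩, ⟨2, .negSucc 1, [.ofNat 0, .ofNat 3, .ofNat 2, .negSucc 2, .negSucc 1, .ofNat 0]⟩, ⟨2, .negSucc 0, [.ofNat 0, .ofNat 1, .ofNat 3, .negSucc 1, .negSucc 1, .ofNat 0]⟩, ⟨2, .ofNat 0, [.ofNat 0, .ofNat 1, .ofNat 1, .negSucc 0, .negSucc 0, .ofNat 0]⟩, ⟨2, .negSucc 0, [.ofNat 0, .ofNat 0, .ofNat 1, .negSucc 0, .ofNat 0, .ofNat 0]⟩, ⟨3, .negSucc 1, [.ofNat 2, .ofNat 8, .ofNat 6, .negSucc 4, .negSucc 7, .negSucc 2]⟩, ⟨3, .negSucc 1, [.ofNat 1, .ofNat 7, .ofNat 7, .negSucc 3, .negSucc 7, .negSucc 2]⟩, ⟨3, .negSucc 0, [.ofNat 1, .ofNat 5, .ofNat 8, .negSucc 2, .negSucc 7, .negSucc 2]⟩, ⟨3, .ofNat 0, [.ofNat 1, .ofNat 5, .ofNat 6, .negSucc 1, .negSucc 6, .negSucc 2]⟩, ⟨3, .ofNat 0, [.ofNat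 1, .ofNat 5, .ofNat 5, .negSucc 2, .negSucc 5, .negSucc 1]⟩, ⟨3, .negSucc 0, [.ofNat 1, .ofNat 4, .ofNat 5, .negSucc 2, .negSucc 4, .negSucc 1]⟩, ⟨3, .negSucc 1, [.ofNat 0, .ofNat 4, .ofNat 5, .negSucc 1, .negSucc 4, .negSucc 1]⟩, ⟨3, .negSucc 0, [.ofNat 0, .ofNat 2, .ofNat 6, .negSucc 0, .negSucc 4, .negSucc 1]⟩, ⟨3, .ofNat 0, [.ofNat 0, .ofNat 2, .ofNat 4, .ofNat 0, .negSucc 3, .negSucc 1]⟩, ⟨3, .ofNat 0, [.ofNat 0, .ofNat 2, .ofNat 3, .negSucc 0, .negSucc 2, .negSucc 0]⟩, ⟨3, .ofNat 0, [.ofNat 0, .ofNat 2, .ofNat 2, .negSucc 1, .negSucc 1, .ofNat 0]⟩, ⟨3, .negSucc 0, [.ofNat 0, .ofNat 1, .ofNat 2, .negSucc 1, .negSucc 0, .ofNat 0]⟩, ⟨3, .negSucc 0, [.ofNat 0, .ofNat 0, .ofNat 2, .negSucc 0, .negSucc 0, .ofNat 0]⟩, ⟨3, .ofNat 0, [.ofNat 0, .ofNat 0, .ofNat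 0, .ofNat 0, .ofNat 0, .ofNat 0]⟩],
  [⟨0, .ofNat 2, [.ofNat 3, .ofNat 8, .ofNat 5, .negSucc 5, .negSucc 7, .negSucc 1]⟩, ⟨0, .ofNat 2, [.ofNat 3, .ofNat 8, .ofNat 4, .negSucc 6, .negSucc 6, .negSucc 0]⟩, ⟨0, .ofNat 1, [.ofNat 3, .ofNat 8, .ofNat 3, .negSucc 7, .negSucc 4, .negSucc 0]⟩, ⟨0, .ofNat 0, [.ofNat 3, .ofNat 7, .ofNat 2, .negSucc 5, .negSucc 4, .negSucc 0]⟩, ⟨0, .ofNat 0, [.ofNat 2, .ofNat 6, .ofNat 3, .negSucc 4, .negSucc 4, .negSucc 0]⟩, ⟨0, .ofNat 1, [.ofNat 2, .ofNat 5, .ofNat 3, .negSucc 4, .negSucc 3, .negSucc 0]⟩, ⟨0, .ofNat 2, [.ofNat 2, .ofNat 5, .ofNat 2, .negSucc 4, .negSucc 3, .ofNat 0]⟩, ⟨0, .ofNat 1, [.ofNat 2, .ofNat 5, .ofNat 1, .negSucc 5, .negSucc 1, .ofNat 0]⟩, ⟨0, .ofNat 0, [.ofNat 2, .ofNat 4, .ofNat 0, .negSucc 3, .negSucc 1, .ofNat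 0]⟩, ⟨0, .ofNat 0, [.ofNat 1, .ofNat 3, .ofNat 1, .negSucc 2, .negSucc 1, .ofNat 0]⟩, ⟨0, .ofNat 0, [.ofNat 0, .ofNat 2, .ofNat 2, .negSucc 1, .negSucc 1, .ofNat 0]⟩, ⟨0, .ofNat 1, [.ofNat 0, .ofNat 1, .ofNat 2, .negSucc 1, .negSucc 0, .ofNat 0]⟩, ⟨0, .ofNat 1, [.ofNat 0, .ofNat 1, .ofNat 1, .negSucc 1, .ofNat 0, .ofNat 0]⟩, ⟨1, .negSucc 0, [.ofNat 3, .ofNat 7, .ofNat 6, .negSucc 4, .negSucc 7, .negSucc 2]⟩, ⟨1, .ofNat 0, [.ofNat 2, .ofNat 7, .ofNat 6, .negSucc 3, .negSucc 7, .negSucc 2]⟩, ⟨1, .ofNat 0, [.ofNat 1, .ofNat 6, .ofNat 7, .negSucc 2, .negSucc 7, .negSucc 2]⟩, ⟨1, .ofNat 1, [.ofNat 1, .ofNat 5, .ofNat 7, .negSucc 2, .negSucc 6, .negSucc 2]⟩, ⟨1, .ofNat 2, [.ofNat 1, .ofNat 5, .ofNat 6, .negSucc 2, .negSucc 6, .negSucc 1]⟩, ⟨1, .ofNat 1, [.ofNat 1,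 .ofNat 5, .ofNat 5, .negSucc 3, .negSucc 4, .negSucc 1]⟩, ⟨1, .ofNat 0, [.ofNat 1, .ofNat 4, .ofNat 4, .negSucc 1, .negSucc 4, .negSucc 1]⟩, ⟨1, .ofNat 0, [.ofNat 0, .ofNat 3, .ofNat 5, .negSucc 0, .negSucc 4, .negSucc 1]⟩, ⟨1, .ofNat 1, [.ofNat 0, .ofNat 2, .ofNat 5, .negSucc 0, .negSucc 3, .negSucc 1]⟩, ⟨1, .ofNat 2, [.ofNat 0, .ofNat 2, .ofNat 4, .negSucc 0, .negSucc 3, .negSucc 0]⟩, ⟨1, .ofNat 2, [.ofNat 0, .ofNat 2, .ofNat 3, .negSucc 1, .negSucc 2, .ofNat 0]⟩, ⟨1, .ofNat 1, [.ofNat 0, .ofNat 2, .ofNat 2, .negSucc 2, .negSucc 0, .ofNat 0]⟩, ⟨1, .ofNat 0, [.ofNat 0, .ofNat 1, .ofNat 1, .negSucc 0, .negSucc 0, .ofNat 0]⟩, ⟨1, .ofNat 1, [.ofNat 0, .ofNat 0, .ofNat 1, .negSucc 0, .ofNat 0, .ofNat 0]⟩, ⟨2, .ofNat 2, [.ofNat 3, .ofNat 8, .ofNat 5, .negSucc 5,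 .negSucc 7, .negSucc 1]⟩, ⟨2, .ofNat 2, [.ofNat 3, .ofNat 8, .ofNat 4, .negSucc 6, .negSucc 6, .negSucc 0]⟩, ⟨2, .ofNat 1, [.ofNat 3, .ofNat 8, .ofNat 3, .negSucc 7, .negSucc 4, .negSucc 0]⟩, ⟨2, .ofNat 0, [.ofNat 3, .ofNat 7, .ofNat 2, .negSucc 5, .negSucc 4, .negSucc 0]⟩, ⟨2, .ofNat 0, [.ofNat 2, .ofNat 6, .ofNat 3, .negSucc 4, .negSucc 4, .negSucc 0]⟩, ⟨2, .ofNat 1, [.ofNat 2, .ofNat 5, .ofNat 3, .negSucc 4, .negSucc 3, .negSucc 0]⟩, ⟨2, .ofNat 2, [.ofNat 2, .ofNat 5, .ofNat 2, .negSucc 4, .negSucc 3, .ofNat 0]⟩, ⟨2, .ofNat 1, [.ofNat 2, .ofNat 5, .ofNat 1, .negSucc 5, .negSucc 1, .ofNat 0]⟩, ⟨2, .ofNat 0, [.ofNat 2, .ofNat 4, .ofNat 0, .negSucc 3, .negSucc 1, .ofNat 0]⟩, ⟨2, .ofNat 0, [.ofNat 1, .ofNat 3, .ofNat 1, .negSucc 2, .negSucc 1, .ofNat 0]⟩, ⟨2,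 .ofNat 0, [.ofNat 0, .ofNat 2, .ofNat 2, .negSucc 1, .negSucc 1, .ofNat 0]⟩, ⟨2, .ofNat 1, [.ofNat 0, .ofNat 1, .ofNat 2, .negSucc 1, .negSucc 0, .ofNat 0]⟩, ⟨2, .ofNat 1, [.ofNat 0, .ofNat 1, .ofNat 1, .negSucc 1, .ofNat 0, .ofNat 0]⟩, ⟨2, .ofNat 0, [.ofNat 0, .ofNat 0, .ofNat 0, .ofNat 0, .ofNat 0, .ofNat 0]⟩, ⟨3, .negSucc 0, [.ofNat 3, .ofNat 7, .ofNat 6, .negSucc 4, .negSucc 7, .negSucc 2]⟩, ⟨3, .ofNat 0, [.ofNat 2, .ofNat 7, .ofNat 6, .negSucc 3, .negSucc 7, .negSucc 2]⟩, ⟨3, .ofNat 0, [.ofNat 1, .ofNat 6, .ofNat 7, .negSucc 2, .negSucc 7, .negSucc 2]⟩, ⟨3, .ofNat 1, [.ofNat 1, .ofNat 5, .ofNat 7, .negSucc 2, .negSucc 6, .negSucc 2]⟩, ⟨3, .ofNat 2, [.ofNat 1, .ofNat 5, .ofNat 6, .negSucc 2, .negSucc 6, .negSucc 1]⟩, ⟨3, .ofNat 1, [.ofNat 1, .ofNat 5, .ofNat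 5, .negSucc 3, .negSucc 4, .negSucc 1]⟩, ⟨3, .ofNat 0, [.ofNat 1, .ofNat 4, .ofNat 4, .negSucc 1, .negSucc 4, .negSucc 1]⟩, ⟨3, .ofNat 0, [.ofNat 0, .ofNat 3, .ofNat 5, .negSucc 0, .negSucc 4, .negSucc 1]⟩, ⟨3, .ofNat 1, [.ofNat 0, .ofNat 2, .ofNat 5, .negSucc 0, .negSucc 3, .negSucc 1]⟩, ⟨3, .ofNat 2, [.ofNat 0, .ofNat 2, .ofNat 4, .negSucc 0, .negSucc 3, .negSucc 0]⟩, ⟨3, .ofNat 2, [.ofNat 0, .ofNat 2, .ofNat 3, .negSucc 1, .negSucc 2, .ofNat 0]⟩, ⟨3, .ofNat 1, [.ofNat 0, .ofNat 2, .ofNat 2, .negSucc 2, .negSucc 0, .ofNat 0]⟩, ⟨3, .ofNat 0, [.ofNat 0, .ofNat 1, .ofNat 1, .negSucc 0, .negSucc 0, .ofNat 0]⟩, ⟨3, .ofNat 1, [.ofNat 0, .ofNat 0, .ofNat 1, .negSucc 0, .ofNat 0, .ofNat 0]⟩],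
  [⟨0, .ofNat 1, [.ofNat 3, .ofNat 8, .ofNat 5, .negSucc 6, .negSucc 6, .negSucc 1]⟩, ⟨0, .ofNat 1, [.ofNat 3, .ofNat 8, .ofNat 4, .negSucc 7, .negSucc 5, .negSucc 0]⟩, ⟨0, .ofNat 0, [.ofNat 3, .ofNat 8, .ofNat 2, .negSucc 6, .negSucc 4, .negSucc 0]⟩, ⟨0, .negSucc 0, [.ofNat 3, .ofNat 6, .ofNat 3, .negSucc 5, .negSucc 4, .negSucc 0]⟩, ⟨0, .ofNat 1, [.ofNat 2, .ofNat 5, .ofNat 2, .negSucc 5, .negSucc 2, .ofNat 0]⟩, ⟨0, .ofNat 0, [.ofNat 2, .ofNat 5, .ofNat 0, .negSucc 4, .negSucc 1, .ofNat 0]⟩, ⟨0, .negSucc 0, [.ofNat 2, .ofNat 3, .ofNat 1, .negSucc 3, .negSucc 1, .ofNat 0]⟩, ⟨0, .negSucc 0, [.ofNat 1, .ofNat 2, .ofNat 2, .negSucc 2, .negSucc 1, .ofNat 0]⟩, ⟨0, .ofNat 0, [.ofNat 0, .ofNat 1, .ofNat 0, .negSucc 0, .ofNat 0, .ofNat 0]⟩, ⟨1, .negSucc 0, [.ofNat 2,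 .ofNat 6, .ofNat 7, .negSucc 3, .negSucc 7, .negSucc 2]⟩, ⟨1, .ofNat 1, [.ofNat 1, .ofNat 5, .ofNat 6, .negSucc 3, .negSucc 5, .negSucc 1]⟩, ⟨1, .ofNat 0, [.ofNat 1, .ofNat 5, .ofNat 4, .negSucc 2, .negSucc 4, .negSucc 1]⟩, ⟨1, .negSucc 0, [.ofNat 1, .ofNat 3, .ofNat 5, .negSucc 1, .negSucc 4, .negSucc 1]⟩, ⟨1, .ofNat 1, [.ofNat 0, .ofNat 2, .ofNat 4, .negSucc 1, .negSucc 2, .negSucc 0]⟩, ⟨1, .ofNat 1, [.ofNat 0, .ofNat 2, .ofNat 3, .negSucc 2, .negSucc 1, .ofNat 0]⟩, ⟨1, .ofNat 0, [.ofNat 0, .ofNat 2, .ofNat 1, .negSucc 1, .negSucc 0, .ofNat 0]⟩, ⟨1, .ofNat 0, [.ofNat 0, .ofNat 0, .ofNat 0, .ofNat 0, .ofNat 0, .ofNat 0]⟩, ⟨2, .ofNat 1, [.ofNat 3, .ofNat 8, .ofNat 5, .negSucc 6, .negSucc 6, .negSucc 1]⟩, ⟨2, .ofNat 1, [.ofNat 3, .ofNat 8, .ofNat 4, .negSucc 7,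 .negSucc 5, .negSucc 0]⟩, ⟨2, .ofNat 0, [.ofNat 3, .ofNat 8, .ofNat 2, .negSucc 6, .negSucc 4, .negSucc 0]⟩, ⟨2, .negSucc 0, [.ofNat 3, .ofNat 6, .ofNat 3, .negSucc 5, .negSucc 4, .negSucc 0]⟩, ⟨2, .ofNat 1, [.ofNat 2, .ofNat 5, .ofNat 2, .negSucc 5, .negSucc 2, .ofNat 0]⟩, ⟨2, .ofNat 0, [.ofNat 2, .ofNat 5, .ofNat 0, .negSucc 4, .negSucc 1, .ofNat 0]⟩, ⟨2, .negSucc 0, [.ofNat 2, .ofNat 3, .ofNat 1, .negSucc 3, .negSucc 1, .ofNat 0]⟩, ⟨2, .negSucc 0, [.ofNat 1, .ofNat 2, .ofNat 2, .negSucc 2, .negSucc 1, .ofNat 0]⟩, ⟨2, .ofNat 0, [.ofNat 0, .ofNat 1, .ofNat 0, .negSucc 0, .ofNat 0, .ofNat 0]⟩, ⟨3, .negSucc 0, [.ofNat 2, .ofNat 6, .ofNat 7, .negSucc 3, .negSucc 7, .negSucc 2]⟩, ⟨3, .ofNat 1, [.ofNat 1, .ofNat 5, .ofNat 6, .negSucc 3, .negSucc 5, .negSucc 1]⟩,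 ⟨3, .ofNat 0, [.ofNat 1, .ofNat 5, .ofNat 4, .negSucc 2, .negSucc 4, .negSucc 1]⟩, ⟨3, .negSucc 0, [.ofNat 1, .ofNat 3, .ofNat 5, .negSucc 1, .negSucc 4, .negSucc 1]⟩, ⟨3, .ofNat 1, [.ofNat 0, .ofNat 2, .ofNat 4, .negSucc 1, .negSucc 2, .negSucc 0]⟩, ⟨3, .ofNat 1, [.ofNat 0, .ofNat 2, .ofNat 3, .negSucc 2, .negSucc 1, .ofNat 0]⟩, ⟨3, .ofNat 0, [.ofNat 0, .ofNat 2, .ofNat 1, .negSucc 1, .negSucc 0, .ofNat 0]⟩],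
  [⟨0, .ofNat 1, [.ofNat 3, .ofNat 8, .ofNat 4, .negSucc 6, .negSucc 5, .negSucc 1]⟩, ⟨0, .negSucc 0, [.ofNat 2, .ofNat 6, .ofNat 4, .negSucc 5, .negSucc 4, .negSucc 0]⟩, ⟨0, .ofNat 0, [.ofNat 2, .ofNat 5, .ofNat 3, .negSucc 3, .negSucc 4, .negSucc 0]⟩, ⟨0, .ofNat 1, [.ofNat 2, .ofNat 5, .ofNat 2, .negSucc 4, .negSucc 2, .negSucc 0]⟩, ⟨0, .negSucc 0, [.ofNat 1, .ofNat 3, .ofNat 2, .negSucc 3, .negSucc 1, .ofNat 0]⟩, ⟨0, .negSucc 0, [.ofNat 0, .ofNat 2, .ofNat 3, .negSucc 2, .negSucc 1, .ofNat 0]⟩, ⟨0, .ofNat 0, [.ofNat 0, .ofNat 1, .ofNat 2, .negSucc 0, .negSucc 1, .ofNat 0]⟩, ⟨0, .ofNat 0, [.ofNat 0, .ofNat 0, .ofNat 0, .ofNat 0, .ofNat 0, .ofNat 0]⟩, ⟨1, .negSucc 0, [.ofNat 2, .ofNat 7, .ofNat 7, .negSucc 4, .negSucc 7, .negSucc 2]⟩, ⟨1, .negSucc 0, [.ofNat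 1, .ofNat 6, .ofNat 8, .negSucc 3, .negSucc 7, .negSucc 2]⟩, ⟨1, .ofNat 0, [.ofNat 1, .ofNat 5, .ofNat 7, .negSucc 1, .negSucc 7, .negSucc 2]⟩, ⟨1, .ofNat 1, [.ofNat 1, .ofNat 5, .ofNat 6, .negSucc 2, .negSucc 5, .negSucc 2]⟩, ⟨1, .negSucc 0, [.ofNat 0, .ofNat 3, .ofNat 6, .negSucc 1, .negSucc 4, .negSucc 1]⟩, ⟨1, .ofNat 0, [.ofNat 0, .ofNat 2, .ofNat 5, .ofNat 0, .negSucc 4, .negSucc 1]⟩, ⟨1, .ofNat 1, [.ofNat 0, .ofNat 2, .ofNat 4, .negSucc 0, .negSucc 2, .negSucc 1]⟩, ⟨1, .ofNat 1, [.ofNat 0, .ofNat 2, .ofNat 3, .negSucc 1, .negSucc 1, .negSucc 0]⟩, ⟨1, .ofNat 0, [.ofNat 0, .ofNat 0, .ofNat 1, .ofNat 0, .negSucc 0, .ofNat 0]⟩, ⟨2, .ofNat 1, [.ofNat 3, .ofNat 8, .ofNat 4, .negSucc 6, .negSucc 5, .negSucc 1]⟩, ⟨2, .negSucc 0, [.ofNat 2, .ofNat 6, .ofNat 4, .negSucc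 5, .negSucc 4, .negSucc 0]⟩, ⟨2, .ofNat 0, [.ofNat 2, .ofNat 5, .ofNat 3, .negSucc 3, .negSucc 4, .negSucc 0]⟩, ⟨2, .ofNat 1, [.ofNat 2, .ofNat 5, .ofNat 2, .negSucc 4, .negSucc 2, .negSucc 0]⟩, ⟨2, .negSucc 0, [.ofNat 1, .ofNat 3, .ofNat 2, .negSucc 3, .negSucc 1, .ofNat 0]⟩, ⟨2, .negSucc 0, [.ofNat 0, .ofNat 2, .ofNat 3, .negSucc 2, .negSucc 1, .ofNat 0]⟩, ⟨2, .ofNat 0, [.ofNat 0, .ofNat 1, .ofNat 2, .negSucc 0, .negSucc 1, .ofNat 0]⟩, ⟨3, .negSucc 0, [.ofNat 2, .ofNat 7, .ofNat 7, .negSucc 4, .negSucc 7, .negSucc 2]⟩, ⟨3, .negSucc 0, [.ofNat 1, .ofNat 6, .ofNat 8, .negSucc 3, .negSucc 7, .negSucc 2]⟩, ⟨3, .ofNat 0, [.ofNat 1, .ofNat 5, .ofNat 7, .negSucc 1, .negSucc 7, .negSucc 2]⟩, ⟨3, .ofNat 1, [.ofNat 1, .ofNat 5, .ofNat 6, .negSucc 2, .negSucc 5, .negSucc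 2]⟩, ⟨3, .negSucc 0, [.ofNat 0, .ofNat 3, .ofNat 6, .negSucc 1, .negSucc 4, .negSucc 1]⟩, ⟨3, .ofNat 0, [.ofNat 0, .ofNat 2, .ofNat 5, .ofNat 0, .negSucc 4, .negSucc 1]⟩, ⟨3, .ofNat 1, [.ofNat 0, .ofNat 2, .ofNat 4, .negSucc 0, .negSucc 2, .negSucc 1]⟩, ⟨3, .ofNat 1, [.ofNat 0, .ofNat 2, .ofNat 3, .negSucc 1, .negSucc 1, .negSucc 0]⟩, ⟨3, .ofNat 0, [.ofNat 0, .ofNat 0, .ofNat 1, .ofNat 0, .negSucc 0, .ofNat 0]⟩]]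
def PBL : List (List Ltr) := [[⟨0, .ofNat 1, [.ofNat 0, .ofNat 0, .ofNat 0, .ofNat 0, .ofNat 0, .ofNat 0]⟩, ⟨0, .ofNat 0, [.ofNat 0, .ofNat 0, .ofNat 0, .ofNat 2, .negSucc 0, .negSucc 0]⟩, ⟨0, .ofNat 0, [.ofNat 0, .ofNat 0, .ofNat 1, .ofNat 3, .negSucc 1, .negSucc 1]⟩, ⟨0, .negSucc 0, [.ofNat 0, .ofNat 0, .ofNat 3, .ofNat 2, .negSucc 2, .negSucc 1]⟩, ⟨0, .negSucc 1, [.ofNat 0, .ofNat 2, .ofNat 2, .ofNat 1, .negSucc 2, .negSucc 1]⟩, ⟨0, .negSucc 0, [.ofNat 1, .ofNat 2, .ofNat 2, .ofNat 0, .negSucc 2, .negSucc 1]⟩, ⟨0, .ofNat 0, [.ofNat 1, .ofNat 3, .ofNat 2, .ofNat 0, .negSucc 3, .negSucc 1]⟩, ⟨0, .ofNat 0, [.ofNat 1, .ofNat 3, .ofNat 3, .ofNat 1, .negSucc 4, .negSucc 2]⟩, ⟨0, .negSucc 0, [.ofNat 1, .ofNat 3, .ofNat 5, .ofNat 0, .negSucc 5, .negSucc 2]⟩, ⟨0, .negSucc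 1, [.ofNat 1, .ofNat 5, .ofNat 4, .negSucc 0, .negSucc 5, .negSucc 2]⟩, ⟨0, .negSucc 1, [.ofNat 2, .ofNat 6, .ofNat 3, .negSucc 1, .negSucc 5, .negSucc 2]⟩, ⟨0, .negSucc 0, [.ofNat 3, .ofNat 6, .ofNat 3, .negSucc 2, .negSucc 5, .negSucc 2]⟩, ⟨0, .ofNat 0, [.ofNat 3, .ofNat 7, .ofNat 3, .negSucc 2, .negSucc 6, .negSucc 2]⟩, ⟨0, .negSucc 0, [.ofNat 3, .ofNat 7, .ofNat 5, .negSucc 3, .negSucc 7, .negSucc 2]⟩, ⟨1, .negSucc 1, [.ofNat 0, .ofNat 1, .negSucc 0, .ofNat 0, .ofNat 0, .ofNat 0]⟩, ⟨1, .negSucc 1, [.ofNat 1, .ofNat 2, .negSucc 1, .negSucc 0, .ofNat 0, .ofNat 0]⟩, ⟨1, .negSucc 0, [.ofNat 2, .ofNat 2, .negSucc 1, .negSucc 1, .ofNat 0, .ofNat 0]⟩, ⟨1, .ofNat 0, [.ofNat 2, .ofNat 3, .negSucc 1, .negSucc 1, .negSucc 0, .ofNat 0]⟩, ⟨1, .ofNat 0, [.ofNat 2, .ofNat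 3, .negSucc 0, .negSucc 0, .negSucc 1, .negSucc 0]⟩, ⟨1, .negSucc 0, [.ofNat 2, .ofNat 3, .ofNat 1, .negSucc 1, .negSucc 2, .negSucc 0]⟩, ⟨1, .negSucc 1, [.ofNat 2, .ofNat 5, .ofNat 0, .negSucc 2, .negSucc 2, .negSucc 0]⟩, ⟨1, .negSucc 0, [.ofNat 3, .ofNat 5, .ofNat 0, .negSucc 3, .negSucc 2, .negSucc 0]⟩, ⟨1, .ofNat 0, [.ofNat 3, .ofNat 6, .ofNat 0, .negSucc 3, .negSucc 3, .negSucc 0]⟩, ⟨1, .ofNat 0, [.ofNat 3, .ofNat 6, .ofNat 1, .negSucc 2, .negSucc 4, .negSucc 1]⟩, ⟨1, .ofNat 0, [.ofNat 3, .ofNat 6, .ofNat 2, .negSucc 1, .negSucc 5, .negSucc 2]⟩, ⟨1, .negSucc 0, [.ofNat 3, .ofNat 6, .ofNat 4, .negSucc 2, .negSucc 6, .negSucc 2]⟩, ⟨1, .negSucc 0, [.ofNat 3, .ofNat 7, .ofNat 4, .negSucc 3, .negSucc 6, .negSucc 2]⟩, ⟨2, .ofNat 1, [.ofNat 0, .ofNat 0, .ofNat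 0, .ofNat 0, .ofNat 0, .ofNat 0]⟩, ⟨2, .ofNat 0, [.ofNat 0, .ofNat 0, .ofNat 0, .ofNat 2, .negSucc 0, .negSucc 0]⟩, ⟨2, .ofNat 0, [.ofNat 0, .ofNat 0, .ofNat 1, .ofNat 3, .negSucc 1, .negSucc 1]⟩, ⟨2, .negSucc 0, [.ofNat 0, .ofNat 0, .ofNat 3, .ofNat 2, .negSucc 2, .negSucc 1]⟩, ⟨2, .negSucc 1, [.ofNat 0, .ofNat 2, .ofNat 2, .ofNat 1, .negSucc 2, .negSucc 1]⟩, ⟨2, .negSucc 0, [.ofNat 1, .ofNat 2, .ofNat 2, .ofNat 0, .negSucc 2, .negSucc 1]⟩, ⟨2, .ofNat 0, [.ofNat 1, .ofNat 3, .ofNat 2, .ofNat 0, .negSucc 3, .negSucc 1]⟩, ⟨2, .ofNat 0, [.ofNat 1, .ofNat 3, .ofNat 3, .ofNat 1, .negSucc 4, .negSucc 2]⟩, ⟨2, .negSucc 0, [.ofNat 1, .ofNat 3, .ofNat 5, .ofNat 0, .negSucc 5, .negSucc 2]⟩, ⟨2, .negSucc 1, [.ofNat 1, .ofNat 5, .ofNat 4, .negSucc 0, .negSucc 5, .negSucc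 2]⟩, ⟨2, .negSucc 1, [.ofNat 2, .ofNat 6, .ofNat 3, .negSucc 1, .negSucc 5, .negSucc 2]⟩, ⟨2, .negSucc 0, [.ofNat 3, .ofNat 6, .ofNat 3, .negSucc 2, .negSucc 5, .negSucc 2]⟩, ⟨2, .ofNat 0, [.ofNat 3, .ofNat 7, .ofNat 3, .negSucc 2, .negSucc 6, .negSucc 2]⟩, ⟨2, .negSucc 0, [.ofNat 3, .ofNat 7, .ofNat 5, .negSucc 3, .negSucc 7, .negSucc 2]⟩, ⟨3, .negSucc 1, [.ofNat 0, .ofNat 1, .negSucc 0, .ofNat 0, .ofNat 0, .ofNat 0]⟩, ⟨3, .negSucc 1, [.ofNat 1, .ofNat 2, .negSucc 1, .negSucc 0, .ofNat 0, .ofNat 0]⟩, ⟨3, .negSucc 0, [.ofNat 2, .ofNat 2, .negSucc 1, .negSucc 1, .ofNat 0, .ofNat 0]⟩, ⟨3, .ofNat 0, [.ofNat 2, .ofNat 3, .negSucc 1, .negSucc 1, .negSucc 0, .ofNat 0]⟩, ⟨3, .ofNat 0, [.ofNat 2, .ofNat 3, .negSucc 0, .negSucc 0, .negSucc 1, .negSucc 0]⟩, ⟨3, .negSucc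 0, [.ofNat 2, .ofNat 3, .ofNat 1, .negSucc 1, .negSucc 2, .negSucc 0]⟩, ⟨3, .negSucc 1, [.ofNat 2, .ofNat 5, .ofNat 0, .negSucc 2, .negSucc 2, .negSucc 0]⟩, ⟨3, .negSucc 0, [.ofNat 3, .ofNat 5, .ofNat 0, .negSucc 3, .negSucc 2, .negSucc 0]⟩, ⟨3, .ofNat 0, [.ofNat 3, .ofNat 6, .ofNat 0, .negSucc 3, .negSucc 3, .negSucc 0]⟩, ⟨3, .ofNat 0, [.ofNat 3, .ofNat 6, .ofNat 1, .negSucc 2, .negSucc 4, .negSucc 1]⟩, ⟨3, .ofNat 0, [.ofNat 3, .ofNat 6, .ofNat 2, .negSucc 1, .negSucc 5, .negSucc 2]⟩, ⟨3, .negSucc 0, [.ofNat 3, .ofNat 6, .ofNat 4, .negSucc 2, .negSucc 6, .negSucc 2]⟩, ⟨3, .negSucc 0, [.ofNat 3, .ofNat 7, .ofNat 4, .negSucc 3, .negSucc 6, .negSucc 2]⟩, ⟨3, .ofNat 0, [.ofNat 3, .ofNat 8, .ofNat 4, .negSucc 3, .negSucc 7, .negSucc 2]⟩],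
  [⟨0, .ofNat 2, [.ofNat 0, .ofNat 0, .ofNat 0, .ofNat 1, .negSucc 0, .ofNat 0]⟩, ⟨0, .ofNat 2, [.ofNat 0, .ofNat 0, .ofNat 1, .ofNat 2, .negSucc 1, .negSucc 0]⟩, ⟨0, .ofNat 1, [.ofNat 0, .ofNat 0, .ofNat 2, .ofNat 2, .negSucc 1, .negSucc 1]⟩, ⟨0, .ofNat 0, [.ofNat 0, .ofNat 1, .ofNat 2, .ofNat 2, .negSucc 2, .negSucc 1]⟩, ⟨0, .ofNat 0, [.ofNat 1, .ofNat 2, .ofNat 1, .ofNat 1, .negSucc 2, .negSucc 1]⟩, ⟨0, .ofNat 1, [.ofNat 1, .ofNat 3, .ofNat 2, .negSucc 0, .negSucc 2, .negSucc 1]⟩, ⟨0, .ofNat 2, [.ofNat 1, .ofNat 3, .ofNat 3, .ofNat 0, .negSucc 4, .negSucc 1]⟩, ⟨0, .ofNat 1, [.ofNat 1, .ofNat 3, .ofNat 4, .ofNat 0, .negSucc 4, .negSucc 2]⟩, ⟨0, .ofNat 0, [.ofNat 1, .ofNat 4, .ofNat 4, .ofNat 0, .negSucc 5, .negSucc 2]⟩, ⟨0, .ofNat 0, [.ofNat 2, .ofNat 5, .ofNat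 3, .negSucc 0, .negSucc 5, .negSucc 2]⟩, ⟨0, .ofNat 0, [.ofNat 3, .ofNat 6, .ofNat 2, .negSucc 1, .negSucc 5, .negSucc 2]⟩, ⟨0, .ofNat 1, [.ofNat 3, .ofNat 7, .ofNat 3, .negSucc 3, .negSucc 5, .negSucc 2]⟩, ⟨0, .ofNat 1, [.ofNat 3, .ofNat 7, .ofNat 4, .negSucc 3, .negSucc 6, .negSucc 2]⟩, ⟨1, .negSucc 0, [.ofNat 0, .ofNat 0, .ofNat 0, .ofNat 0, .ofNat 0, .ofNat 0]⟩, ⟨1, .ofNat 0, [.ofNat 1, .ofNat 1, .negSucc 1, .ofNat 0, .ofNat 0, .ofNat 0]⟩, ⟨1, .ofNat 0, [.ofNat 2, .ofNat 2, .negSucc 2, .negSucc 0, .ofNat 0, .ofNat 0]⟩, ⟨1, .ofNat 1, [.ofNat 2, .ofNat 3, .negSucc 1, .negSucc 2, .ofNat 0, .ofNat 0]⟩, ⟨1, .ofNat 2, [.ofNat 2, .ofNat 3, .negSucc 0, .negSucc 1, .negSucc 1, .ofNat 0]⟩, ⟨1, .ofNat 1, [.ofNat 2, .ofNat 3, .ofNat 0, .negSucc 1, .negSucc 1, .negSucc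 0]⟩, ⟨1, .ofNat 0, [.ofNat 2, .ofNat 4, .ofNat 0, .negSucc 1, .negSucc 2, .negSucc 0]⟩, ⟨1, .ofNat 0, [.ofNat 3, .ofNat 5, .negSucc 0, .negSucc 2, .negSucc 2, .negSucc 0]⟩, ⟨1, .ofNat 1, [.ofNat 3, .ofNat 6, .ofNat 0, .negSucc 4, .negSucc 2, .negSucc 0]⟩, ⟨1, .ofNat 2, [.ofNat 3, .ofNat 6, .ofNat 1, .negSucc 3, .negSucc 4, .negSucc 0]⟩, ⟨1, .ofNat 2, [.ofNat 3, .ofNat 6, .ofNat 2, .negSucc 2, .negSucc 5, .negSucc 1]⟩, ⟨1, .ofNat 1, [.ofNat 3, .ofNat 6, .ofNat 3, .negSucc 2, .negSucc 5, .negSucc 2]⟩, ⟨1, .ofNat 0, [.ofNat 3, .ofNat 7, .ofNat 3, .negSucc 2, .negSucc 6, .negSucc 2]⟩, ⟨1, .ofNat 1, [.ofNat 3, .ofNat 8, .ofNat 4, .negSucc 4, .negSucc 6, .negSucc 2]⟩, ⟨2, .ofNat 2, [.ofNat 0, .ofNat 0, .ofNat 0, .ofNat 1, .negSucc 0, .ofNat 0]⟩, ⟨2, .ofNat 2, [.ofNat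 0, .ofNat 0, .ofNat 1, .ofNat 2, .negSucc 1, .negSucc 0]⟩, ⟨2, .ofNat 1, [.ofNat 0, .ofNat 0, .ofNat 2, .ofNat 2, .negSucc 1, .negSucc 1]⟩, ⟨2, .ofNat 0, [.ofNat 0, .ofNat 1, .ofNat 2, .ofNat 2, .negSucc 2, .negSucc 1]⟩, ⟨2, .ofNat 0, [.ofNat 1, .ofNat 2, .ofNat 1, .ofNat 1, .negSucc 2, .negSucc 1]⟩, ⟨2, .ofNat 1, [.ofNat 1, .ofNat 3, .ofNat 2, .negSucc 0, .negSucc 2, .negSucc 1]⟩, ⟨2, .ofNat 2, [.ofNat 1, .ofNat 3, .ofNat 3, .ofNat 0, .negSucc 4, .negSucc 1]⟩, ⟨2, .ofNat 1, [.ofNat 1, .ofNat 3, .ofNat 4, .ofNat 0, .negSucc 4, .negSucc 2]⟩, ⟨2, .ofNat 0, [.ofNat 1, .ofNat 4, .ofNat 4, .ofNat 0, .negSucc 5, .negSucc 2]⟩, ⟨2, .ofNat 0, [.ofNat 2, .ofNat 5, .ofNat 3, .negSucc 0, .negSucc 5, .negSucc 2]⟩, ⟨2, .ofNat 0, [.ofNat 3, .ofNat 6, .ofNat 2, .negSucc 1, .negSucc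 5, .negSucc 2]⟩, ⟨2, .ofNat 1, [.ofNat 3, .ofNat 7, .ofNat 3, .negSucc 3, .negSucc 5, .negSucc 2]⟩, ⟨2, .ofNat 1, [.ofNat 3, .ofNat 7, .ofNat 4, .negSucc 3, .negSucc 6, .negSucc 2]⟩, ⟨2, .ofNat 0, [.ofNat 3, .ofNat 8, .ofNat 4, .negSucc 3, .negSucc 7, .negSucc 2]⟩, ⟨3, .negSucc 0, [.ofNat 0, .ofNat 0, .ofNat 0, .ofNat 0, .ofNat 0, .ofNat 0]⟩, ⟨3, .ofNat 0, [.ofNat 1, .ofNat 1, .negSucc 1, .ofNat 0, .ofNat 0, .ofNat 0]⟩, ⟨3, .ofNat 0, [.ofNat 2, .ofNat 2, .negSucc 2, .negSucc 0, .ofNat 0, .ofNat 0]⟩, ⟨3, .ofNat 1, [.ofNat 2, .ofNat 3, .negSucc 1, .negSucc 2, .ofNat 0, .ofNat 0]⟩, ⟨3, .ofNat 2, [.ofNat 2, .ofNat 3, .negSucc 0, .negSucc 1, .negSucc 1, .ofNat 0]⟩, ⟨3, .ofNat 1, [.ofNat 2, .ofNat 3, .ofNat 0, .negSucc 1, .negSucc 1, .negSucc 0]⟩, ⟨3, .ofNat 0, [.ofNat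 2, .ofNat 4, .ofNat 0, .negSucc 1, .negSucc 2, .negSucc 0]⟩, ⟨3, .ofNat 0, [.ofNat 3, .ofNat 5, .negSucc 0, .negSucc 2, .negSucc 2, .negSucc 0]⟩, ⟨3, .ofNat 1, [.ofNat 3, .ofNat 6, .ofNat 0, .negSucc 4, .negSucc 2, .negSucc 0]⟩, ⟨3, .ofNat 2, [.ofNat 3, .ofNat 6, .ofNat 1, .negSucc 3, .negSucc 4, .negSucc 0]⟩, ⟨3, .ofNat 2, [.ofNat 3, .ofNat 6, .ofNat 2, .negSucc 2, .negSucc 5, .negSucc 1]⟩, ⟨3, .ofNat 1, [.ofNat 3, .ofNat 6, .ofNat 3, .negSucc 2, .negSucc 5, .negSucc 2]⟩, ⟨3, .ofNat 0, [.ofNat 3, .ofNat 7, .ofNat 3, .negSucc 2, .negSucc 6, .negSucc 2]⟩, ⟨3, .ofNat 1, [.ofNat 3, .ofNat 8, .ofNat 4, .negSucc 4, .negSucc 6, .negSucc 2]⟩],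
  [⟨0, .ofNat 1, [.ofNat 0, .ofNat 0, .ofNat 0, .ofNat 1, .ofNat 0, .negSucc 0]⟩, ⟨0, .ofNat 1, [.ofNat 0, .ofNat 0, .ofNat 1, .ofNat 2, .negSucc 0, .negSucc 1]⟩, ⟨0, .ofNat 0, [.ofNat 0, .ofNat 0, .ofNat 2, .ofNat 3, .negSucc 2, .negSucc 1]⟩, ⟨0, .negSucc 0, [.ofNat 0, .ofNat 1, .ofNat 3, .ofNat 1, .negSucc 2, .negSucc 1]⟩, ⟨0, .ofNat 1, [.ofNat 1, .ofNat 3, .ofNat 3, .ofNat 0, .negSucc 3, .negSucc 2]⟩, ⟨0, .ofNat 0, [.ofNat 1, .ofNat 3, .ofNat 4, .ofNat 1, .negSucc 5, .negSucc 2]⟩, ⟨0, .negSucc 0, [.ofNat 1, .ofNat 4, .ofNat 5, .negSucc 0, .negSucc 5, .negSucc 2]⟩, ⟨0, .negSucc 0, [.ofNat 2, .ofNat 5, .ofNat 4, .negSucc 1, .negSucc 5, .negSucc 2]⟩, ⟨0, .ofNat 0, [.ofNat 3, .ofNat 7, .ofNat 4, .negSucc 2, .negSucc 7, .negSucc 2]⟩, ⟨1, .negSucc 0, [.ofNat 1,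 .ofNat 1, .negSucc 0, .negSucc 0, .ofNat 0, .ofNat 0]⟩, ⟨1, .ofNat 1, [.ofNat 2, .ofNat 3, .negSucc 0, .negSucc 1, .negSucc 0, .negSucc 0]⟩, ⟨1, .ofNat 0, [.ofNat 2, .ofNat 3, .ofNat 0, .negSucc 0, .negSucc 2, .negSucc 0]⟩, ⟨1, .negSucc 0, [.ofNat 2, .ofNat 4, .ofNat 1, .negSucc 2, .negSucc 2, .negSucc 0]⟩, ⟨1, .ofNat 1, [.ofNat 3, .ofNat 6, .ofNat 1, .negSucc 3, .negSucc 3, .negSucc 1]⟩, ⟨1, .ofNat 1, [.ofNat 3, .ofNat 6, .ofNat 2, .negSucc 2, .negSucc 4, .negSucc 2]⟩, ⟨1, .ofNat 0, [.ofNat 3, .ofNat 6, .ofNat 3, .negSucc 1, .negSucc 6, .negSucc 2]⟩, ⟨1, .ofNat 0, [.ofNat 3, .ofNat 8, .ofNat 4, .negSucc 3, .negSucc 7, .negSucc 2]⟩, ⟨2, .ofNat 1, [.ofNat 0, .ofNat 0, .ofNat 0, .ofNat 1, .ofNat 0, .negSucc 0]⟩, ⟨2, .ofNat 1, [.ofNat 0, .ofNat 0, .ofNat 1, .ofNat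 2, .negSucc 0, .negSucc 1]⟩, ⟨2, .ofNat 0, [.ofNat 0, .ofNat 0, .ofNat 2, .ofNat 3, .negSucc 2, .negSucc 1]⟩, ⟨2, .negSucc 0, [.ofNat 0, .ofNat 1, .ofNat 3, .ofNat 1, .negSucc 2, .negSucc 1]⟩, ⟨2, .ofNat 1, [.ofNat 1, .ofNat 3, .ofNat 3, .ofNat 0, .negSucc 3, .negSucc 2]⟩, ⟨2, .ofNat 0, [.ofNat 1, .ofNat 3, .ofNat 4, .ofNat 1, .negSucc 5, .negSucc 2]⟩, ⟨2, .negSucc 0, [.ofNat 1, .ofNat 4, .ofNat 5, .negSucc 0, .negSucc 5, .negSucc 2]⟩, ⟨2, .negSucc 0, [.ofNat 2, .ofNat 5, .ofNat 4, .negSucc 1, .negSucc 5, .negSucc 2]⟩, ⟨2, .ofNat 0, [.ofNat 3, .ofNat 7, .ofNat 4, .negSucc 2, .negSucc 7, .negSucc 2]⟩, ⟨3, .negSucc 0, [.ofNat 1, .ofNat 1, .negSucc 0, .negSucc 0, .ofNat 0, .ofNat 0]⟩, ⟨3, .ofNat 1, [.ofNat 2, .ofNat 3, .negSucc 0, .negSucc 1, .negSucc 0, .negSucc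 0]⟩, ⟨3, .ofNat 0, [.ofNat 2, .ofNat 3, .ofNat 0, .negSucc 0, .negSucc 2, .negSucc 0]⟩, ⟨3, .negSucc 0, [.ofNat 2, .ofNat 4, .ofNat 1, .negSucc 2, .negSucc 2, .negSucc 0]⟩, ⟨3, .ofNat 1, [.ofNat 3, .ofNat 6, .ofNat 1, .negSucc 3, .negSucc 3, .negSucc 1]⟩, ⟨3, .ofNat 1, [.ofNat 3, .ofNat 6, .ofNat 2, .negSucc 2, .negSucc 4, .negSucc 2]⟩, ⟨3, .ofNat 0, [.ofNat 3, .ofNat 6, .ofNat 3, .negSucc 1, .negSucc 6, .negSucc 2]⟩],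
  [⟨0, .ofNat 1, [.ofNat 0, .ofNat 0, .ofNat 1, .ofNat 1, .negSucc 0, .negSucc 0]⟩, ⟨0, .negSucc 0, [.ofNat 1, .ofNat 1, .ofNat 2, .ofNat 1, .negSucc 2, .negSucc 1]⟩, ⟨0, .ofNat 0, [.ofNat 1, .ofNat 3, .ofNat 1, .ofNat 0, .negSucc 2, .negSucc 1]⟩, ⟨0, .ofNat 1, [.ofNat 1, .ofNat 3, .ofNat 3, .negSucc 0, .negSucc 3, .negSucc 1]⟩, ⟨0, .negSucc 0, [.ofNat 2, .ofNat 4, .ofNat 4, .negSucc 0, .negSucc 5, .negSucc 2]⟩, ⟨0, .negSucc 0, [.ofNat 3, .ofNat 5, .ofNat 3, .negSucc 1, .negSucc 5, .negSucc 2]⟩, ⟨0, .ofNat 0, [.ofNat 3, .ofNat 7, .ofNat 2, .negSucc 2, .negSucc 5, .negSucc 2]⟩, ⟨0, .ofNat 0, [.ofNat 3, .ofNat 8, .ofNat 4, .negSucc 3, .negSucc 7, .negSucc 2]⟩, ⟨1, .negSucc 0, [.ofNat 1, .ofNat 0, .negSucc 0, .ofNat 0, .ofNat 0, .ofNat 0]⟩, ⟨1, .negSucc 0, [.ofNat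 2, .ofNat 1, .negSucc 1, .negSucc 0, .ofNat 0, .ofNat 0]⟩, ⟨1, .ofNat 0, [.ofNat 2, .ofNat 3, .negSucc 2, .negSucc 1, .ofNat 0, .ofNat 0]⟩, ⟨1, .ofNat 1, [.ofNat 2, .ofNat 3, .negSucc 0, .negSucc 2, .negSucc 0, .ofNat 0]⟩, ⟨1, .negSucc 0, [.ofNat 3, .ofNat 4, .ofNat 0, .negSucc 2, .negSucc 2, .negSucc 0]⟩, ⟨1, .ofNat 0, [.ofNat 3, .ofNat 6, .negSucc 0, .negSucc 3, .negSucc 2, .negSucc 0]⟩, ⟨1, .ofNat 1, [.ofNat 3, .ofNat 6, .ofNat 1, .negSucc 4, .negSucc 3, .negSucc 0]⟩, ⟨1, .ofNat 1, [.ofNat 3, .ofNat 6, .ofNat 2, .negSucc 3, .negSucc 4, .negSucc 1]⟩, ⟨1, .ofNat 0, [.ofNat 3, .ofNat 8, .ofNat 3, .negSucc 3, .negSucc 6, .negSucc 2]⟩, ⟨2, .ofNat 1, [.ofNat 0, .ofNat 0, .ofNat 1, .ofNat 1, .negSucc 0, .negSucc 0]⟩, ⟨2, .negSucc 0, [.ofNat 1, .ofNat 1, .ofNat 2,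 .ofNat 1, .negSucc 2, .negSucc 1]⟩, ⟨2, .ofNat 0, [.ofNat 1, .ofNat 3, .ofNat 1, .ofNat 0, .negSucc 2, .negSucc 1]⟩, ⟨2, .ofNat 1, [.ofNat 1, .ofNat 3, .ofNat 3, .negSucc 0, .negSucc 3, .negSucc 1]⟩, ⟨2, .negSucc 0, [.ofNat 2, .ofNat 4, .ofNat 4, .negSucc 0, .negSucc 5, .negSucc 2]⟩, ⟨2, .negSucc 0, [.ofNat 3, .ofNat 5, .ofNat 3, .negSucc 1, .negSucc 5, .negSucc 2]⟩, ⟨2, .ofNat 0, [.ofNat 3, .ofNat 7, .ofNat 2, .negSucc 2, .negSucc 5, .negSucc 2]⟩, ⟨3, .negSucc 0, [.ofNat 1, .ofNat 0, .negSucc 0, .ofNat 0, .ofNat 0, .ofNat 0]⟩, ⟨3, .negSucc 0, [.ofNat 2, .ofNat 1, .negSucc 1, .negSucc 0, .ofNat 0, .ofNat 0]⟩, ⟨3, .ofNat 0, [.ofNat 2, .ofNat 3, .negSucc 2, .negSucc 1, .ofNat 0, .ofNat 0]⟩, ⟨3, .ofNat 1, [.ofNat 2, .ofNat 3, .negSucc 0, .negSucc 2, .negSucc 0,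 .ofNat 0]⟩, ⟨3, .negSucc 0, [.ofNat 3, .ofNat 4, .ofNat 0, .negSucc 2, .negSucc 2, .negSucc 0]⟩, ⟨3, .ofNat 0, [.ofNat 3, .ofNat 6, .negSucc 0, .negSucc 3, .negSucc 2, .negSucc 0]⟩, ⟨3, .ofNat 1, [.ofNat 3, .ofNat 6, .ofNat 1, .negSucc 4, .negSucc 3, .negSucc 0]⟩, ⟨3, .ofNat 1, [.ofNat 3, .ofNat 6, .ofNat 2, .negSucc 3, .negSucc 4, .negSucc 1]⟩, ⟨3, .ofNat 0, [.ofNat 3, .ofNat 8, .ofNat 3, .negSucc 3, .negSucc 6, .negSucc 2]⟩]]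
def PA (c : ℕ) := PAL.getD c []
def PB (c : ℕ) := PBL.getD c []
def lvL : List (List (List ℤ)) := [[[.ofNat 0, .ofNat 0, .ofNat 0, .ofNat 0], [.ofNat 0, .negSucc 0, .ofNat 1, .ofNat 0], [.negSucc 0, .ofNat 0, .ofNat 1, .ofNat 0], [.ofNat 1, .negSucc 0, .ofNat 0, .ofNat 0]],
  [[.ofNat 0, .ofNat 0, .ofNat 0, .ofNat 0], [.ofNat 0, .negSucc 0, .ofNat 1, .ofNat 0], [.ofNat 0, .negSucc 0, .ofNat 0, .ofNat 1], [.ofNat 0, .ofNat 0, .ofNat 1, .negSucc 0]],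
  [[.ofNat 0, .ofNat 0, .ofNat 0, .ofNat 0], [.ofNat 0, .negSucc 0, .ofNat 1, .ofNat 0], [.negSucc 0, .ofNat 0, .ofNat 1, .ofNat 0], [.ofNat 0, .ofNat 0, .ofNat 1, .negSucc 0]],
  [[.ofNat 0, .ofNat 0, .ofNat 0, .ofNat 0], [.ofNat 0, .negSucc 0, .ofNat 1, .ofNat 0], [.ofNat 0, .negSucc 0, .ofNat 0, .ofNat 1], [.ofNat 1, .negSucc 0, .ofNat 0, .ofNat 0]]]
def rvL : List (List (List ℤ)) := [[[.ofNat 0, .ofNat 0, .ofNat 0, .ofNat 0], [.ofNat 0, .negSucc 0, .ofNat 1, .ofNat 0], [.negSucc 0, .ofNat 0, .ofNat 1, .ofNat 0], [.ofNat 1, .negSucc 0, .ofNat 0, .ofNat 0]],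
  [[.ofNat 0, .ofNat 0, .ofNat 0, .ofNat 0], [.ofNat 0, .negSucc 0, .ofNat 1, .ofNat 0], [.ofNat 0, .negSucc 0, .ofNat 0, .ofNat 1], [.ofNat 0, .ofNat 0, .ofNat 1, .negSucc 0]],
  [[.ofNat 0, .ofNat 0, .ofNat 0, .ofNat 0], [.ofNat 0, .negSucc 0, .ofNat 1, .ofNat 0], [.ofNat 0, .negSucc 0, .ofNat 0, .ofNat 1], [.ofNat 1, .negSucc 0, .ofNat 0, .ofNat 0]],
  [[.ofNat 0, .ofNat 0, .ofNat 0, .ofNat 0], [.ofNat 0, .negSucc 0, .ofNat 1, .ofNat 0], [.negSucc 0, .ofNat 0, .ofNat 1, .ofNat 0], [.ofNat 0, .ofNat 0, .ofNat 1, .negSucc 0]]]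
def lvM : List (List (List ℤ)) := [[[.ofNat 0, .ofNat 0, .ofNat 0, .ofNat 0], [.ofNat 0, .negSucc 0, .ofNat 1, .ofNat 0], [.ofNat 0, .negSucc 0, .ofNat 0, .ofNat 1], [.ofNat 0, .ofNat 0, .ofNat 1, .negSucc 0]],
  [[.ofNat 0, .ofNat 0, .ofNat 0, .ofNat 0], [.ofNat 0, .negSucc 0, .ofNat 1, .ofNat 0], [.negSucc 0, .ofNat 0, .ofNat 1, .ofNat 0], [.ofNat 1, .negSucc 0, .ofNat 0, .ofNat 0]],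
  [[.ofNat 0, .ofNat 0, .ofNat 0, .ofNat 0], [.ofNat 0, .negSucc 0, .ofNat 1, .ofNat 0], [.ofNat 0, .negSucc 0, .ofNat 0, .ofNat 1], [.ofNat 1, .negSucc 0, .ofNat 0, .ofNat 0]],
  [[.ofNat 0, .ofNat 0, .ofNat 0, .ofNat 0], [.ofNat 0, .negSucc 0, .ofNat 1, .ofNat 0], [.negSucc 0, .ofNat 0, .ofNat 1, .ofNat 0], [.ofNat 0, .ofNat 0, .ofNat 1, .negSucc 0]]]
def rvM : List (List (List ℤ)) := [[[.ofNat 0, .ofNat 0, .ofNat 0, .ofNat 0], [.ofNat 0, .negSucc 0, .ofNat 1, .ofNat 0], [.ofNat 0, .negSucc 0, .ofNat 0, .ofNat 1], [.ofNat 0, .ofNat 0, .ofNat 1, .negSucc 0]],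
  [[.ofNat 0, .ofNat 0, .ofNat 0, .ofNat 0], [.ofNat 0, .negSucc 0, .ofNat 1, .ofNat 0], [.negSucc 0, .ofNat 0, .ofNat 1, .ofNat 0], [.ofNat 1, .negSucc 0, .ofNat 0, .ofNat 0]],
  [[.ofNat 0, .ofNat 0, .ofNat 0, .ofNat 0], [.ofNat 0, .negSucc 0, .ofNat 1, .ofNat 0], [.negSucc 0, .ofNat 0, .ofNat 1, .ofNat 0], [.ofNat 0, .ofNat 0, .ofNat 1, .negSucc 0]],
  [[.ofNat 0, .ofNat 0, .ofNat 0, .ofNat 0], [.ofNat 0, .negSucc 0, .ofNat 1, .ofNat 0], [.ofNat 0, .negSucc 0, .ofNat 0, .ofNat 1], [.ofNat 1, .negSucc 0, .ofNat 0, .ofNat 0]]]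
def σ0 : Sol := fun r n => match r with
    | .ofNat 0 => (match n with
      | 0 => [none]
      | 1 => [none]
      | 2 => [some ⟨[.ofNat 8, .negSucc 2], .ofNat 55, []⟩]
      | 3 => [some ⟨[.ofNat 8, .negSucc 2], .ofNat 55, []⟩]
      | 4 => [some ⟨[.ofNat 8, .negSucc 2], .ofNat 55, []⟩]
      | _ => [some ⟨[.ofNat 8, .negSucc 2], .ofNat 55, []⟩])
    | _ => (match n with
      | 0 => [none]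
      | 1 => [none]
      | 2 => [none]
      | 3 => [some ⟨[.ofNat 55, .negSucc 63, .ofNat 24], .ofNat 165, []⟩]
      | 4 => [some ⟨[.ofNat 55, .negSucc 63, .ofNat 24], .ofNat 165, []⟩]
      | _ => [some ⟨[.ofNat 55, .negSucc 63, .ofNat 24], .ofNat 165, []⟩])
def σ1 : Sol := fun r n => match r with
    | .ofNat 0 => (match n with
      | 0 => [none]
      | 1 => [none]
      | 2 => [some ⟨[.ofNat 8, .negSucc 2], .ofNat 55, []⟩]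
      | 3 => [some ⟨[.ofNat 8, .negSucc 2], .ofNat 55, []⟩]
      | 4 => [some ⟨[.ofNat 8, .negSucc 2], .ofNat 55, []⟩]
      | _ => [some ⟨[.ofNat 8, .negSucc 2], .ofNat 55, []⟩])
    | _ => (match n with
      | 0 => [none]
      | 1 => [none]
      | 2 => [none]
      | 3 => [some ⟨[.ofNat 55, .negSucc 63, .ofNat 24], .ofNat 165, []⟩]
      | 4 => [some ⟨[.ofNat 55, .negSucc 63, .ofNat 24], .ofNat 165, []⟩]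
      | _ => [some ⟨[.ofNat 55, .negSucc 63, .ofNat 24], .ofNat 165, []⟩])
def Dt : Dat := ⟨K, 4, 1, .negSucc 2, fun c => lvL.getD c [], fun c => rvL.getD c [], σ0⟩
def Dm : DatM := ⟨K', 1, 6, fun c => lvM.getD c [], fun c => rvM.getD c [], fun c c' => (patM.getD c []).getD c' [], σ1⟩
def start : List (ℤ × ℕ) := [(.ofNat 0, 0), (.ofNat 1, 1)]

end LW44
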